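import Mathlib

/-!
# E7 module Hom (MP_460e77_co, helper88): homomorphisms to cyclic groups

`hom_orth`: for `u ≠ 0` there is `m` with `m u ≠ 0` (finite abelian groups of exponent dividing `N` are sums of `ZMod (n i)`, `n i ∣ N`; or from `AddChar.exists_apply_ne_zero` for `AddChar A ℂ`, whose values are powers of `ξ`), then the sum is `0` (shift by `m`);
for `u = 0` the number of `m` is `card A` (e.g. `A →+ ZMod N` is equivalent to `AddChar A ℂ`, `AddChar.card_eq`).
`card_hom`: `G →+ ZMod p` = homomorphisms of `G ⧸ p G`.  `card_hom0`: `m ↦ (g ↦ m (p • g))` is a bijection from the homomorphisms of `p G` to those of `G` which vanish on the `g` with `p • g = 0`; `p G` is elementary (`hel`), use `hom_orth` with `u = 0`.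
-/

set_option autoImplicit false

namespace Pool.Agent.H88.E7

open Finset
open scoped Classical

private noncomputable def toChar {N : ℕ} [NeZero N] {A : Type*} [AddCommGroup A] {ξ : ℂ}
    (hξ : IsPrimitiveRoot ξ N) (m : A →+ ZMod N) : AddChar A ℂ :=
  (AddChar.zmodChar N hξ.pow_eq_one).compAddMonoidHom m

private theorem toChar_apply {N : ℕ} [NeZero N] {A : Type*} [AddCommGroup A] {ξ : ℂ}
    (hξ : IsPrimitiveRoot ξ N) (m : A →+ ZMod N) (a : A) : toChar hξ m a = ξ ^ (m a).val := by
  unfold toChar
  rw [AddChar.compAddMonoidHom_apply, AddChar.zmodChar_apply]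

private theorem pow_val_inj {N : ℕ} [NeZero N] {ξ : ℂ} (hξ : IsPrimitiveRoot ξ N) {x y : ZMod N}
    (h : ξ ^ x.val = ξ ^ y.val) : x = y :=
  ZMod.val_injective N (hξ.pow_inj (ZMod.val_lt x) (ZMod.val_lt y) h)

private theorem toChar_bij {N : ℕ} [NeZero N] {A : Type*} [AddCommGroup A]
    (hA : ∀ a : A, N • a = 0) {ξ : ℂ} (hξ : IsPrimitiveRoot ξ N) :
    Function.Bijective (toChar hξ : (A →+ ZMod N) → AddChar A ℂ) := by
  constructor
  · intro m m' h
    ext a
    apply pow_val_inj hξ
    rw [← toChar_apply hξ, ← toChar_apply hξ, h]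
  · intro ψ
    have hk : ∀ a : A, ∃ k : ℕ, k < N ∧ ξ ^ k = ψ a := by
      intro a
      apply hξ.eq_pow_of_pow_eq_one
      rw [← AddChar.map_nsmul_eq_pow, hA a, AddChar.map_zero_eq_one]
    choose k hkN hkψ using hk
    have hval : ∀ a : A, ξ ^ ((k a : ZMod N)).val = ψ a := by
      intro a
      rw [ZMod.val_cast_of_lt (hkN a)]
      exact hkψ a
    let m : A →+ ZMod N :=
      { toFun := fun a => (k a : ZMod N)
        map_zero' := by
          apply pow_val_inj hξ
          rw [hval, AddChar.map_zero_eq_one, ZMod.val_zero, pow_zero]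
        map_add' := by
          intro a b
          apply pow_val_inj hξ
          rw [hval, AddChar.map_add_eq_mul, ← hval a, ← hval b]
          have h1 := AddChar.zmodChar_apply hξ.pow_eq_one ((k a : ZMod N) + (k b : ZMod N))
          rw [← h1, AddChar.map_add_eq_mul, AddChar.zmodChar_apply, AddChar.zmodChar_apply] }
    refine ⟨m, ?_⟩
    ext a
    rw [toChar_apply]
    exact hval a

theorem hom_orth {N : ℕ} [NeZero N] {A : Type*} [AddCommGroup A] [Finite A]
    [Fintype (A →+ ZMod N)] (hA : ∀ a : A, N • a = 0) {ξ : ℂ} (hξ : IsPrimitiveRoot ξ N) (u : A) :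
    ∑ m : A →+ ZMod N, ξ ^ (m u).val = if u = 0 then (Nat.card A : ℂ) else 0 := by
  have : Fintype A := Fintype.ofFinite A
  have h1 : ∑ m : A →+ ZMod N, ξ ^ (m u).val = ∑ ψ : AddChar A ℂ, ψ u := by
    apply Fintype.sum_bijective (toChar hξ) (toChar_bij hA hξ)
    intro m
    rw [toChar_apply]
  rw [h1]
  have h2 := AddChar.sum_apply_eq_ite (α := A) u
  rw [Nat.card_eq_fintype_card, h2]

private theorem card_dual {N : ℕ} [NeZero N] {A : Type*} [AddCommGroup A] [Finite A]
    (hA : ∀ a : A, N • a = 0) : Nat.card (A →+ ZMod N) = Nat.card A := by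
  have : Finite (A →+ ZMod N) := Finite.of_injective (fun m => (m : A → ZMod N)) DFunLike.coe_injective
  have : Fintype (A →+ ZMod N) := Fintype.ofFinite _
  have hξ := Complex.isPrimitiveRoot_exp N (NeZero.ne N)
  have h := hom_orth hA hξ (0 : A)
  rw [if_pos rfl] at h
  simp only [map_zero, ZMod.val_zero, pow_zero] at h
  rw [Finset.sum_const, nsmul_eq_mul, mul_one, Finset.card_univ, ← Nat.card_eq_fintype_card] at h
  exact_mod_cast h

theorem card_hom {p : ℕ} [Fact p.Prime] {G : Type*} [AddCommGroup G] [Finite G] :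
    Nat.card (G →+ ZMod p) * Nat.card (Set.range fun g : G => p • g) = Nat.card G := by
  set H : AddSubgroup G := (nsmulAddMonoidHom p : G →+ G).range with hH
  have hcard : Nat.card (Set.range fun g : G => p • g) = Nat.card H := rfl
  have hA : ∀ a : G ⧸ H, p • a = 0 := by
    intro a
    obtain ⟨g, rfl⟩ := QuotientAddGroup.mk_surjective a
    rw [← QuotientAddGroup.mk_nsmul, QuotientAddGroup.eq_zero_iff]
    exact ⟨g, rfl⟩
  have h1 : Nat.card (G →+ ZMod p) = Nat.card (G ⧸ H →+ ZMod p) := by
    symm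
    apply Nat.card_congr
    refine Equiv.ofBijective (fun m => m.comp (QuotientAddGroup.mk' H)) ⟨?_, ?_⟩
    · intro m m' h
      ext a
      exact DFunLike.congr_fun h a
    · intro ψ
      refine ⟨QuotientAddGroup.lift H ψ ?_, ?_⟩
      · rintro _ ⟨g, rfl⟩
        show ψ (p • g) = 0
        rw [map_nsmul]
        exact ZModModule.char_nsmul_eq_zero p (ψ g)
      · ext g
        rfl
  rw [h1, card_dual hA, hcard]
  exact (AddSubgroup.card_eq_card_quotient_mul_card_addSubgroup H).symm

theorem card_hom0 {p : ℕ} [Fact p.Prime] {G : Type*} [AddCommGroup G] [Finite G]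
    (hel : ∀ g : G, p • (p • g) = 0) :
    Nat.card {ψ : G →+ ZMod p // ∀ g, p • g = 0 → ψ g = 0} =
      Nat.card (Set.range fun g : G => p • g) := by
  set f : G →+ G := nsmulAddMonoidHom p with hf
  have hcard : Nat.card (Set.range fun g : G => p • g) = Nat.card f.range := rfl
  have hA : ∀ a : f.range, p • a = 0 := by
    rintro ⟨_, g, rfl⟩
    apply Subtype.ext
    exact hel g
  rw [hcard, ← card_dual hA]
  symm
  apply Nat.card_congr
  refine Equiv.ofBijective (fun m => ⟨m.comp f.rangeRestrict, ?_⟩) ⟨?_, ?_⟩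
  · intro g hg
    have h0 : f.rangeRestrict g = 0 := by
      apply Subtype.ext
      exact hg
    rw [AddMonoidHom.comp_apply, h0, map_zero]
  · intro m m' h
    ext a
    obtain ⟨g, rfl⟩ := f.rangeRestrict_surjective a
    have h1 := congrArg Subtype.val h
    exact DFunLike.congr_fun h1 g
  · rintro ⟨ψ, hψ⟩
    have hk : f.ker ≤ ψ.ker := by
      intro g hg
      exact hψ g hg
    refine ⟨(QuotientAddGroup.lift f.ker ψ hk).comp
      (QuotientAddGroup.quotientKerEquivRange f).symm.toAddMonoidHom, ?_⟩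
    apply Subtype.ext
    ext g
    show QuotientAddGroup.lift f.ker ψ hk ((QuotientAddGroup.quotientKerEquivRange f).symm (f.rangeRestrict g)) = ψ g
    have h2 : (QuotientAddGroup.quotientKerEquivRange f).symm (f.rangeRestrict g) =
        (QuotientAddGroup.mk g : G ⧸ f.ker) := by
      rw [AddEquiv.symm_apply_eq]
      rfl
    rw [h2]
    rfl

end Pool.Agent.H88.E7
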