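import Pool.Agent.H88.E7.Defs

/-!
# E7 module En (MP_460e77_co, helper88): second and fourth moment of the character sums

Orthogonality: `∑ ψ : G →+ ZMod p, ew w (ψ g)` is the number of `ψ` if `ψ g = 0` for all `ψ`, else `0` (shift).  `‖TT‖ ^ 2 = ∑ ew w (ψ (y x - y x'))`, `‖TT‖ ^ 4 = ∑ ew w (ψ (y x1 - y x2 - (y x3 - y x4)))`
(`conj (ew w a) = ew w (-a)`, `ew_add`, `conj_ew`, `norm_sq_sum` in Pool/Agent/H88/Pl/Basic.lean).  `energy`: split the sum of `‖TT‖ ^ 4` into `Ψ0` and the rest, on the rest `‖TT‖ ^ 4 = R * ‖TT‖ ^ 2`.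
-/

set_option autoImplicit false

namespace Pool.Agent.H88.E7

open Finset Pool.Agent.H16.RB Pool.Agent.H88.Pl
open scoped Classical

variable {p : ℕ} [Fact p.Prime] {X G : Type*} [AddCommGroup G] [Finite G]
  [Fintype (G →+ ZMod p)]

omit [Finite G] in
lemma orth {w : ℂ} (hw : IsPrimitiveRoot w p) (g : G) :
    ∑ ψ : G →+ ZMod p, ew w (ψ g) =
      if (∀ l : G →+ ZMod p, l g = 0) then (Fintype.card (G →+ ZMod p) : ℂ) else 0 := by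
  split_ifs with h
  · have : ∀ ψ : G →+ ZMod p, ew w (ψ g) = 1 := fun ψ => by rw [h ψ, ew_zero]
    simp only [this, sum_const, card_univ, nsmul_eq_mul, mul_one]
  · push Not at h
    obtain ⟨l, hl⟩ := h
    have h1 : ew w (l g) ≠ 1 := fun h' => hl ((ew_eq_one_iff hw _).1 h')
    have h2 : ew w (l g) * ∑ ψ : G →+ ZMod p, ew w (ψ g) = ∑ ψ : G →+ ZMod p, ew w (ψ g) := by
      rw [mul_sum]
      rw [← Equiv.sum_comp (Equiv.addLeft l) (fun ψ : G →+ ZMod p => ew w (ψ g))]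
      apply sum_congr rfl
      intro t _
      rw [← ew_add hw.pow_eq_one]
      rfl
    have h3 : (ew w (l g) - 1) * ∑ ψ : G →+ ZMod p, ew w (ψ g) = 0 := by
      rw [sub_mul, h2, one_mul, sub_self]
    exact (mul_eq_zero.1 h3).resolve_left (sub_ne_zero.2 h1)

omit [Finite G] [Fintype (G →+ ZMod p)] in
lemma mul_conj_TT {w : ℂ} (hw : w ^ p = 1) (y : X → G) (S : Finset X) (ψ : G →+ ZMod p) :
    TT w y S ψ * (starRingEnd ℂ) (TT w y S ψ) =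
      TT w (fun z : X × X => y z.1 - y z.2) (S ×ˢ S) ψ := by
  rw [TT, TT, map_sum, sum_mul_sum, ← sum_product']
  apply sum_congr rfl
  intro z _
  rw [conj_ew hw, ← ew_add hw, map_sub, sub_eq_add_neg]

omit [Finite G] [Fintype (G →+ ZMod p)] in
lemma norm_sq_TT {w : ℂ} (hw : w ^ p = 1) (y : X → G) (S : Finset X) (ψ : G →+ ZMod p) :
    ((‖TT w y S ψ‖ ^ 2 : ℝ) : ℂ) = TT w (fun z : X × X => y z.1 - y z.2) (S ×ˢ S) ψ := by
  rw [← mul_conj_TT hw, Complex.ofReal_pow, ← Complex.mul_conj']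

theorem two {w : ℂ} (hw : IsPrimitiveRoot w p) (y : X → G) (S : Finset X) :
    ∑ ψ : G →+ ZMod p, ‖TT w y S ψ‖ ^ 2 =
      (Fintype.card (G →+ ZMod p) : ℝ) * ((P2 p y S).card : ℝ) := by
  have h1 : ((∑ ψ : G →+ ZMod p, ‖TT w y S ψ‖ ^ 2 : ℝ) : ℂ) =
      (((Fintype.card (G →+ ZMod p) : ℝ) * ((P2 p y S).card : ℝ) : ℝ) : ℂ) := by
    rw [Complex.ofReal_sum]
    simp_rw [norm_sq_TT hw.pow_eq_one]
    unfold TT
    rw [sum_comm]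
    simp_rw [orth hw]
    rw [← sum_filter, sum_const, nsmul_eq_mul]
    have h2 : (S ×ˢ S).filter (fun z : X × X => ∀ l : G →+ ZMod p, l (y z.1 - y z.2) = 0) =
        P2 p y S := by
      unfold P2
      ext z
      simp only [mem_filter, map_sub, sub_eq_zero]
    rw [h2]
    push_cast
    ring
  exact_mod_cast h1

theorem four {w : ℂ} (hw : IsPrimitiveRoot w p) (y : X → G) (S : Finset X) :
    ∑ ψ : G →+ ZMod p, ‖TT w y S ψ‖ ^ 4 =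
      (Fintype.card (G →+ ZMod p) : ℝ) * ((P4 p y S).card : ℝ) := by
  have h1 : ∀ ψ : G →+ ZMod p, ‖TT w y S ψ‖ ^ 4 =
      ‖TT w (fun z : X × X => y z.1 - y z.2) (S ×ˢ S) ψ‖ ^ 2 := by
    intro ψ
    rw [← norm_sq_TT hw.pow_eq_one, Complex.norm_real, Real.norm_eq_abs, abs_of_nonneg (by positivity)]
    ring
  simp_rw [h1]
  exact two hw (fun z : X × X => y z.1 - y z.2) (S ×ˢ S)

theorem energy {w : ℂ} (hw : IsPrimitiveRoot w p) (y : X → G) (S : Finset X) (R : ℝ)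
    (Ψ0 : Finset (G →+ ZMod p)) (h0 : ∀ ψ ∈ Ψ0, ‖TT w y S ψ‖ ^ 2 = (S.card : ℝ) ^ 2)
    (h1 : ∀ ψ ∉ Ψ0, ‖TT w y S ψ‖ ^ 2 = 0 ∨ ‖TT w y S ψ‖ ^ 2 = R) :
    (Fintype.card (G →+ ZMod p) : ℝ) * ((P4 p y S).card : ℝ) =
      (Ψ0.card : ℝ) * (S.card : ℝ) ^ 4 +
        R * ((Fintype.card (G →+ ZMod p) : ℝ) * ((P2 p y S).card : ℝ) -
          (Ψ0.card : ℝ) * (S.card : ℝ) ^ 2) := by
  rw [← four hw y S, ← two hw y S]
  rw [← sum_add_sum_compl Ψ0 (fun ψ : G →+ ZMod p => ‖TT w y S ψ‖ ^ 4),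
    ← sum_add_sum_compl Ψ0 (fun ψ : G →+ ZMod p => ‖TT w y S ψ‖ ^ 2)]
  have e4 : ∀ ψ : G →+ ZMod p, ‖TT w y S ψ‖ ^ 4 = (‖TT w y S ψ‖ ^ 2) ^ 2 := fun ψ => by ring
  have a4 : ∑ ψ ∈ Ψ0, ‖TT w y S ψ‖ ^ 4 = (Ψ0.card : ℝ) * (S.card : ℝ) ^ 4 := by
    rw [sum_congr rfl (g := fun _ => (S.card : ℝ) ^ 4)
      (fun ψ hψ => by rw [e4, h0 ψ hψ]; ring), sum_const, nsmul_eq_mul]
  have a2 : ∑ ψ ∈ Ψ0, ‖TT w y S ψ‖ ^ 2 = (Ψ0.card : ℝ) * (S.card : ℝ) ^ 2 := by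
    rw [sum_congr rfl (g := fun _ => (S.card : ℝ) ^ 2) (fun ψ hψ => h0 ψ hψ), sum_const,
      nsmul_eq_mul]
  have a5 : ∑ ψ ∈ Ψ0ᶜ, ‖TT w y S ψ‖ ^ 4 = R * ∑ ψ ∈ Ψ0ᶜ, ‖TT w y S ψ‖ ^ 2 := by
    rw [mul_sum]
    apply sum_congr rfl
    intro ψ hψ
    rw [mem_compl] at hψ
    rw [e4]
    rcases h1 ψ hψ with h | h <;> rw [h] <;> ring
  rw [a4, a2, a5]
  ring

end Pool.Agent.H88.E7
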