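import Pool.Agent.H88.E7.Val
import Pool.Agent.H88.E7.En
import Pool.Agent.H88.T7.Grp
import Pool.Agent.H38.PL3.Main3

/-!
# E7 Main (MP_460e77_co, helper88): `|p G| < p ^ s`
-/

set_option autoImplicit false

namespace Pool.Agent.H88.E7

open Finset Pool.Agent.H16.RB Pool.Agent.H88.Pl Pool.Agent.H88.T7 Pool.Agent.H38.RX
open scoped Classical

/-- the fibres of multiplication by `p` all have the same size -/
private theorem Main_fib {A : Type*} [AddCommGroup A] [Fintype A] (p : ℕ) (a : A) :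
    (univ.image fun x : A => p • x).card * (univ.filter fun x : A => p • x = p • a).card =
      Fintype.card A := by
  have h := card_eq_sum_card_image (fun x : A => p • x) (univ : Finset A)
  rw [card_univ] at h
  rw [h, ← smul_eq_mul, ← sum_const]
  refine sum_congr rfl fun b hb => ?_
  obtain ⟨c, -, rfl⟩ := mem_image.1 hb
  refine card_bij (fun x _ => x - a + c) ?_ ?_ ?_
  · intro x hx
    rw [mem_filter] at hx ⊢
    refine ⟨mem_univ _, ?_⟩
    rw [smul_add, smul_sub, hx.2, sub_self, zero_add]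
  · intro x _ y _ hxy
    simpa using hxy
  · intro y hy
    rw [mem_filter] at hy
    refine ⟨y - c + a, ?_, by abel⟩
    rw [mem_filter]
    refine ⟨mem_univ _, ?_⟩
    rw [smul_add, smul_sub, hy.2, sub_self, zero_add]

section Fin

variable {p s : ℕ} [Fact p.Prime] {H K : Type*} [AddCommGroup H] [AddCommGroup K] [Fintype H]
  [Fintype K] {f : H → K}

/-- all slices have `p ^ (s + 1)` points -/
private theorem Main_slice (hH : Fintype.card H = p ^ (2 * s + 1)) (hK1 : ∀ k : K, p • k = 0)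
    (hPG : (PG p H K).card = p ^ s) (v : H × K) (hv : v ∈ PG p H K) :
    (sl p f v).card = p ^ (s + 1) := by
  obtain ⟨g, -, rfl⟩ := mem_image.1 hv
  have h1 : sl p f (p • g) = univ.filter fun x : H => p • x = p • g.1 := by
    ext x
    simp only [sl, mem_filter, mem_univ, true_and, gr, Prod.ext_iff, Prod.smul_fst, Prod.smul_snd,
      hK1, and_true]
  have h2 : (univ.image fun x : H => p • x).card = p ^ s := by
    rw [← hPG]
    refine card_bij (fun x _ => (x, (0 : K))) ?_ ?_ ?_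
    · intro x hx
      obtain ⟨z, -, rfl⟩ := mem_image.1 hx
      exact mem_image.2 ⟨(z, 0), mem_univ _, by ext <;> simp⟩
    · intro x _ y _ hxy
      exact (Prod.ext_iff.1 hxy).1
    · intro y hy
      obtain ⟨z, -, rfl⟩ := mem_image.1 hy
      refine ⟨p • z.1, mem_image.2 ⟨z.1, mem_univ _, rfl⟩, ?_⟩
      ext
      · rfl
      · simp [hK1]
  have h3 := Main_fib p g.1
  rw [h2, hH, ← h1] at h3
  have hp : 0 < p ^ s := pow_pos (Fact.out : p.Prime).pos _
  refine Nat.eq_of_mul_eq_mul_left hp ?_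
  rw [h3, ← pow_add]
  congr 1
  ring

private theorem Main_contrA (a P c n P2 P4 : ℝ) (ha : 2 ≤ a) (hP : 2 ≤ P) (hc0 : 0 < c)
    (hca : c < a) (hn : n = P * a) (h2 : P2 = n + c)
    (hE : P ^ 2 * a ^ 3 * P4 = a * n ^ 4 + P * a ^ 2 * (P ^ 2 * a ^ 3 * P2 - a * n ^ 2))
    (h4 : P4 + a * P2 ≤ P2 ^ 2 + a * n ^ 2) : False := by
  subst hn
  subst h2
  have hpos : 0 < P ^ 2 * a ^ 3 := by positivity
  have hP4 : P4 = P ^ 2 * a ^ 2 + P * a ^ 2 * (P * a + c) - P * a ^ 2 := by
    refine mul_left_cancel₀ hpos.ne' ?_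
    rw [hE]
    ring
  rw [hP4] at h4
  have h5 : c * (P * a ^ 2 + a) ≤ c * (2 * P * a + c) := by nlinarith
  have h6 : P * a ^ 2 + a ≤ 2 * P * a + c := le_of_mul_le_mul_left h5 hc0
  nlinarith [mul_nonneg (show (0 : ℝ) ≤ P * a by positivity) (sub_nonneg.2 ha)]

private theorem Main_contrB (a P n P2 P4 Q m : ℝ) (hP : 3 ≤ P) (ha : P ≤ a) (hn : n = P * a)
    (h1 : n ≤ P2) (h2 : P2 ≤ n + a) (hQ0 : 0 ≤ Q) (hQ : Q * P ≤ a) (hm : 0 ≤ m)
    (hE : P ^ 2 * a ^ 3 * P4 = m * n ^ 4 + P * a ^ 2 * (P ^ 2 * a ^ 3 * P2 - m * n ^ 2))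
    (h4 : P4 + Q * P2 ≤ P2 ^ 2 + Q * n ^ 2) : False := by
  subst hn
  have hP0 : 0 < P := by linarith
  have ha0 : 0 < a := by linarith
  have hpos : 0 < P ^ 2 * a ^ 3 := by positivity
  have hP4 : P * a ^ 2 * P2 ≤ P4 := by
    refine le_of_mul_le_mul_left ?_ hpos
    rw [hE]
    have : 0 ≤ m * ((P * a) ^ 4 - P * a ^ 2 * (P * a) ^ 2) := by
      refine mul_nonneg hm ?_
      have e1 : (P * a) ^ 4 - P * a ^ 2 * (P * a) ^ 2 = P ^ 3 * a ^ 4 * (P - 1) := by ring
      rw [e1]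
      exact mul_nonneg (by positivity) (by linarith)
    nlinarith
  have hP2 : 0 < P2 := by nlinarith
  have h5 : P * a ^ 2 * P2 ≤ P2 ^ 2 + Q * (P * a) ^ 2 := by nlinarith [mul_nonneg hQ0 hP2.le]
  have h6 : Q * (P * a) ^ 2 ≤ P * a ^ 3 := by
    have e1 : Q * (P * a) ^ 2 = (Q * P) * (P * a ^ 2) := by ring
    have e2 : P * a ^ 3 = a * (P * a ^ 2) := by ring
    rw [e1, e2]
    exact mul_le_mul_of_nonneg_right hQ (by positivity)
  have h7 : P2 ^ 2 ≤ P2 * ((P + 1) * a) := by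
    rw [sq]
    exact mul_le_mul_of_nonneg_left (by linarith) hP2.le
  have h8 : P2 * (P * a ^ 2 - (P + 1) * a) ≤ P * a ^ 3 := by nlinarith
  have h9 : 0 ≤ P * a ^ 2 - (P + 1) * a := by nlinarith [mul_nonneg ha0.le ha0.le]
  have h10 : P * a * (P * a ^ 2 - (P + 1) * a) ≤ P * a ^ 3 :=
    (mul_le_mul_of_nonneg_right h1 h9).trans h8
  have h11 : P * a ^ 2 * (P * a - (P + 1) - a) ≤ 0 := by nlinarith
  have h12 : P * a - (P + 1) - a ≤ 0 := by
    by_contra hcon
    push Not at hcon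
    have := mul_pos (show 0 < P * a ^ 2 by positivity) hcon
    linarith
  nlinarith

theorem odd_ne (hs : 1 ≤ s) (hps : 2 * s + 1 ≤ p) (hH : Fintype.card H = p ^ (2 * s + 1))
    (hK : Fintype.card K = p ^ (2 * s + 1)) (hf : IsPlanar f) :
    Nat.card (Set.range fun g : H × K => p • g) ≠ p ^ s := by
  intro hκ
  have hpp : p.Prime := Fact.out
  have hp3 : 3 ≤ p := by omega
  have hp2 : p ≠ 2 := by omega
  have hK1 : ∀ k : K, p • k = 0 := odd_eq0 hs hps hH hK f hf hκ
  have hPG := card_PG' (p := p) hκ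
  have hn : ∀ v ∈ PG p H K, (sl p f v).card = p ^ (s + 1) := Main_slice hH hK1 hPG
  have hkills : ∀ v ∈ PG p H K, Kills p (gr f) (sl p f v) (s * (p - 1) + 1) := by
    intro v hv
    obtain ⟨w, -, rfl⟩ := mem_image.1 hv
    refine sl_kills (r := 2 * s + 1) (κ := s) (by omega) hH hK f hf hs hκ ?_ w
    have h1 : (2 * s + 1) * (p - 1) = 2 * (s * (p - 1)) + (p - 1) := by ring
    omega
  have : Finite (H × K →+ ZMod p) := DFunLike.finite _
  have := Fintype.ofFinite (H × K →+ ZMod p)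
  obtain ⟨w, hw⟩ : ∃ w : ℂ, IsPrimitiveRoot w p := ⟨_, Complex.isPrimitiveRoot_exp p hpp.ne_zero⟩
  have hΨ : Fintype.card (H × K →+ ZMod p) = p ^ (3 * s + 2) := by
    have h1 := card_hom (p := p) (G := H × K)
    rw [hκ, Nat.card_prod, Nat.card_eq_fintype_card (α := H), Nat.card_eq_fintype_card (α := K), hH,
      hK, Nat.card_eq_fintype_card] at h1
    refine Nat.eq_of_mul_eq_mul_right (pow_pos hpp.pos s) ?_
    rw [h1, ← pow_add, ← pow_add]
    congr 1
    ring
  set Ψ0 : Finset (H × K →+ ZMod p) := univ.filter fun ψ => ∀ g : H × K, p • g = 0 → ψ g = 0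
    with hΨ0
  have hE : ∀ v ∈ PG p H K,
      (p : ℝ) ^ (3 * s + 2) * ((P4 p (gr f) (sl p f v)).card : ℝ) =
        (Ψ0.card : ℝ) * ((p : ℝ) ^ (s + 1)) ^ 4 +
          (p : ℝ) ^ (2 * s + 1) * ((p : ℝ) ^ (3 * s + 2) * ((P2 p (gr f) (sl p f v)).card : ℝ) -
            (Ψ0.card : ℝ) * ((p : ℝ) ^ (s + 1)) ^ 2) := by
    intro v hv
    have h1 := energy (p := p) hw (gr f) (sl p f v) ((p : ℝ) ^ (2 * s + 1)) Ψ0
      (fun ψ hψ => val0 hw v ψ (mem_filter.1 hψ).2)
      (fun ψ hψ => by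
        refine val hs hp2 hH hf hK1 hκ hw v hv (hn v hv) (hkills v hv) ψ ?_
        by_contra hcon
        push Not at hcon
        exact hψ (mem_filter.2 ⟨mem_univ _, hcon⟩))
    rw [hΨ, hn v hv] at h1
    push_cast at h1
    exact h1
  have hpr : (3 : ℝ) ≤ p := by exact_mod_cast hp3
  have hpa : (p : ℝ) ≤ (p : ℝ) ^ s := by
    calc (p : ℝ) = (p : ℝ) ^ 1 := (pow_one _).symm
      _ ≤ (p : ℝ) ^ s := pow_le_pow_right₀ (by linarith) hs
  have e1 : (p : ℝ) ^ (3 * s + 2) = (p : ℝ) ^ 2 * ((p : ℝ) ^ s) ^ 3 := by ring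
  have e2 : (p : ℝ) ^ (2 * s + 1) = (p : ℝ) * ((p : ℝ) ^ s) ^ 2 := by ring
  have e3 : (p : ℝ) ^ (s + 1) = (p : ℝ) * (p : ℝ) ^ s := by ring
  by_cases hel : ∀ g : H × K, p • (p • g) = 0
  · -- `p G` is elementary
    have hc0 : Ψ0.card = p ^ s := by
      have h1 := card_hom0 (p := p) (G := H × K) hel
      rw [hκ, Nat.card_eq_fintype_card, Fintype.card_subtype] at h1
      rw [← h1, hΨ0]
    have hQ : ((PG p H K).filter fun g => p • g = 0).card = p ^ s := by
      rw [← hPG]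
      congr 1
      refine filter_true_of_mem fun g hg => ?_
      obtain ⟨g', -, rfl⟩ := mem_image.1 hg
      exact hel g'
    obtain ⟨h', hh'⟩ : ∃ h' : H, p • h' ≠ 0 := by
      by_contra hcon
      push Not at hcon
      have h1 : (PG p H K).card ≤ 1 := by
        refine card_le_one.2 fun a ha b hb => ?_
        obtain ⟨a', -, rfl⟩ := mem_image.1 ha
        obtain ⟨b', -, rfl⟩ := mem_image.1 hb
        ext <;> simp [hcon, hK1]
      rw [hPG] at h1
      have h2 : p ^ 1 ≤ p ^ s := Nat.pow_le_pow_right hpp.pos hs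
      rw [pow_one] at h2
      omega
    obtain ⟨v, hv, hlt⟩ := exists_coll hf (p • h') h' rfl hh' (by
      have := hel (h', 0)
      exact (Prod.ext_iff.1 this).1)
    have hP2 := P2_lt (p := p) hf hκ v
    have hP4 := P4_le (p := p) hf v
    rw [hQ, hn v hv] at hP4
    rw [hn v hv] at hlt hP2
    have hEv := hE v hv
    rw [hc0, e1, e2, e3] at hEv
    push_cast at hEv
    refine Main_contrA ((p : ℝ) ^ s) p (((P2 p (gr f) (sl p f v)).card : ℝ) - (p : ℝ) * (p : ℝ) ^ s)
      ((p : ℝ) * (p : ℝ) ^ s) ((P2 p (gr f) (sl p f v)).card : ℝ) ((P4 p (gr f) (sl p f v)).card : ℝ)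
      (by linarith) (by linarith) ?_ ?_ rfl (by ring) hEv ?_
    · have : ((p : ℝ) ^ (s + 1)) < ((P2 p (gr f) (sl p f v)).card : ℝ) := by exact_mod_cast hlt
      rw [e3] at this
      linarith
    · have : ((P2 p (gr f) (sl p f v)).card : ℝ) < (p : ℝ) ^ (s + 1) + (p : ℝ) ^ s := by
        exact_mod_cast hP2
      rw [e3] at this
      linarith
    · rw [← e3]
      exact_mod_cast hP4
  · -- `p G` is not elementary
    have hv : (0 : H × K) ∈ PG p H K := mem_image.2 ⟨0, mem_univ _, smul_zero _⟩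
    have hQ : ((PG p H K).filter fun g => p • g = 0).card * p ≤ p ^ s := by
      let A : AddSubgroup (H × K) := (nsmulAddMonoidHom (α := H × K) p).range
      let C : AddSubgroup (H × K) := A ⊓ (nsmulAddMonoidHom (α := H × K) p).ker
      have hA : Nat.card A = p ^ s := hκ
      have hC : ((PG p H K).filter fun g => p • g = 0).card = Nat.card C := by
        rw [← Set.ncard_coe_finset, ← Nat.card_coe_set_eq]
        refine Nat.card_congr (Equiv.setCongr ?_)
        ext g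
        simp only [coe_filter, Set.mem_ofPred_eq, PG, mem_image, mem_univ, true_and]
        rfl
      have hdvd : Nat.card C ∣ p ^ s := hA ▸ AddSubgroup.card_dvd_of_le (inf_le_left : C ≤ A)
      obtain ⟨j, hj, hj2⟩ := (Nat.dvd_prime_pow hpp).1 hdvd
      have hjs : j ≠ s := by
        rintro rfl
        apply hel
        intro g
        have h1 : C = A := AddSubgroup.eq_of_le_of_card_ge inf_le_left (by rw [hj2, hA])
        have h2 : p • g ∈ C := by
          rw [h1]
          exact ⟨g, rfl⟩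
        exact (AddSubgroup.mem_inf.1 h2).2
      rw [hC, hj2, ← pow_succ]
      exact Nat.pow_le_pow_right hpp.pos (by omega)
    have hP2 := P2_lt (p := p) hf hκ (0 : H × K)
    have hP2' := P2_ge (p := p) (f := f) (0 : H × K)
    have hP4 := P4_le (p := p) hf (0 : H × K)
    rw [hn 0 hv] at hP4 hP2 hP2'
    have hEv := hE 0 hv
    rw [e1, e2, e3] at hEv
    refine Main_contrB ((p : ℝ) ^ s) p ((p : ℝ) * (p : ℝ) ^ s)
      ((P2 p (gr f) (sl p f 0)).card : ℝ) ((P4 p (gr f) (sl p f 0)).card : ℝ)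
      (((PG p H K).filter fun g => p • g = 0).card : ℝ) (Ψ0.card : ℝ) hpr hpa rfl ?_ ?_
      (Nat.cast_nonneg _) (by exact_mod_cast hQ) (Nat.cast_nonneg _) hEv ?_
    · rw [← e3]
      exact_mod_cast hP2'
    · rw [← e3]
      exact_mod_cast hP2.le
    · rw [← e3]
      exact_mod_cast hP4

end Fin

/-- `|p G| < p ^ s` -/
theorem odd_lt {p s : ℕ} [Fact p.Prime] (hs : 1 ≤ s) (hps : 2 * s + 1 ≤ p) {H K : Type*}
    [AddCommGroup H] [AddCommGroup K] (hH : Nat.card H = p ^ (2 * s + 1))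
    (hK : Nat.card K = p ^ (2 * s + 1)) (f : H → K) (hf : IsPlanar f) :
    Nat.card (Set.range fun g : H × K => p • g) < p ^ s := by
  have hpp : p.Prime := Fact.out
  have : Finite H := Nat.finite_of_card_ne_zero (by rw [hH]; exact (pow_pos hpp.pos _).ne')
  have : Finite K := Nat.finite_of_card_ne_zero (by rw [hK]; exact (pow_pos hpp.pos _).ne')
  have := Fintype.ofFinite H
  have := Fintype.ofFinite K
  have hG : Nat.card (H × K) = p ^ (2 * (2 * s + 1)) := by
    rw [Nat.card_prod, hH, hK, ← pow_add]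
    congr 1
    ring
  obtain ⟨κ, hκ⟩ := card_range_pow hG
  have hle := odd_le (s := s) hps (by omega) hH hK f hf hκ
  have hne := odd_ne (p := p) (f := f) hs hps (by rw [← Nat.card_eq_fintype_card, hH])
    (by rw [← Nat.card_eq_fintype_card, hK]) hf
  rw [hκ] at hne ⊢
  refine Nat.pow_lt_pow_right hpp.one_lt (lt_of_le_of_ne hle ?_)
  rintro rfl
  exact hne rfl

/-- groups of order `p ^ 7` -/
theorem seven {p : ℕ} [Fact p.Prime] (h7 : 7 ≤ p) {H K : Type*} [AddCommGroup H]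
    [AddCommGroup K] (hH : Nat.card H = p ^ 7) (hK : Nat.card K = p ^ 7) (f : H → K)
    (hf : IsPlanar f) :
    Nonempty (H ≃+ (Fin 7 → ZMod p)) ∧ Nonempty (K ≃+ (Fin 7 → ZMod p)) := by
  have hpp : p.Prime := Fact.out
  have : Finite H := Nat.finite_of_card_ne_zero (by rw [hH]; exact (pow_pos hpp.pos _).ne')
  have : Finite K := Nat.finite_of_card_ne_zero (by rw [hK]; exact (pow_pos hpp.pos _).ne')
  by_cases hall : ∀ g : H × K, p • g = 0
  · exact ⟨equiv_of_smul hH fun x => (Prod.ext_iff.1 (hall (x, 0))).1,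
      equiv_of_smul hK fun y => (Prod.ext_iff.1 (hall (0, y))).2⟩
  exfalso
  have hlt := odd_lt (s := 3) (by norm_num) (by omega) hH hK f hf
  have hG : Nat.card (H × K) = p ^ (2 * 7) := by
    rw [Nat.card_prod, hH, hK, ← pow_add]
  obtain ⟨e, -, he⟩ := (Nat.dvd_prime_pow hpp).1
    (show AddMonoid.exponent (H × K) ∣ p ^ (2 * 7) by
      rw [← hG]; exact AddGroup.exponent_dvd_nat_card)
  have he2 : 2 ≤ e := by
    by_contra hlt
    apply hall
    intro g
    have h1 : AddMonoid.exponent (H × K) ∣ p := by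
      rw [he]
      calc p ^ e ∣ p ^ 1 := pow_dvd_pow p (by omega)
        _ = p := pow_one p
    obtain ⟨c, hc⟩ := h1
    rw [hc, mul_comm, mul_smul, AddMonoid.exponent_nsmul_eq_zero, smul_zero]
  have hB := Pool.Agent.H38.PL3.main_C (show 3 ≤ 7 by omega) he2 hH hK f hf he
  have hsub : (Set.range fun g : H × K => p ^ (e - 1) • g) ⊆ Set.range fun g : H × K => p • g := by
    rintro _ ⟨x, rfl⟩
    refine ⟨p ^ (e - 2) • x, ?_⟩
    show p • (p ^ (e - 2) • x) = p ^ (e - 1) • x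
    rw [smul_smul, ← pow_succ']
    congr 2
    omega
  have hle := Nat.card_mono (Set.toFinite _) hsub
  omega

end Pool.Agent.H88.E7
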