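import Mathlib

/-!
# E7 module Cl (MP_460e77_co, helper88): a classification

`C = supp d`, `B = supp a`, suppose `C ≠ ∅`.  For `c ∈ C`: `P = |P d c| ≤ ∑ |a h| |η (c - h)| ≤ P`, so `∑ |a h| = P` and `a h * η (c - h) = |a h| * d c` for all `h`; so `η (c - h) = σ h * d c` with `σ h = sign (a h)` for `h ∈ B`, `B ∩ C = ∅` (`η 0 = 0`).
`∑ c, η (c - h) * η (c - h') = p [h = h'] - 1` (`quadraticChar` Jacobi sum; `∑_c η (c (c + t)) = -1` for `t ≠ 0`), so `∑ c, η (c - h) * P d c = p a h - A`, `A = ∑ a`; for `h ∈ B` the left side is `P σ h |C|`.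
With `k = |B|`, `D = ∑_{h ∈ B} σ h`: `p P = P k |C| + A D`, `p A = P |C| D + k A`, so `p (p - k) = |C| (k (p - k) + D ^ 2)`; `1 ≤ |C| ≤ p - 1`, so `p ∣ D ^ 2 - k ^ 2 = - 4 k₊ k₋`
(`k₊, k₋` = numbers of `h ∈ B` with `σ h = 1, -1`, `k = k₊ + k₋ < p`), so `k₊ k₋ = 0`, `D ^ 2 = k ^ 2`, `p - k = k |C|`, `k (|C| + 1) = p`, `k = 1`.  Then `a` is `± P` at one point `h0`.
-/

set_option autoImplicit false

namespace Pool.Agent.H88.E7

open Finset

private theorem eta_sum {p : ℕ} [Fact p.Prime] (hp : p ≠ 2) (t : ZMod p) (ht : t ≠ 0) :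
    ∑ c : ZMod p, quadraticChar (ZMod p) c * quadraticChar (ZMod p) (c + t) = -1 := by
  have hF : ringChar (ZMod p) ≠ 2 := by rw [ZMod.ringChar_zmod_n]; exact hp
  have h1 : jacobiSum (quadraticChar (ZMod p)) (quadraticChar (ZMod p))⁻¹
      = -quadraticChar (ZMod p) (-1) := jacobiSum_nontrivial_inv (quadraticChar_ne_one hF)
  rw [(quadraticChar_isQuadratic (ZMod p)).inv] at h1
  have ht' : -t ≠ 0 := neg_ne_zero.mpr ht
  rw [← Equiv.sum_comp (Equiv.mulLeft₀ (-t) ht')]
  have h2 : ∀ y : ZMod p, quadraticChar (ZMod p) ((Equiv.mulLeft₀ (-t) ht') y)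
      * quadraticChar (ZMod p) ((Equiv.mulLeft₀ (-t) ht') y + t)
      = quadraticChar (ZMod p) (-1) * (quadraticChar (ZMod p) y * quadraticChar (ZMod p) (1 - y)) := by
    intro y
    have e1 : (Equiv.mulLeft₀ (-t) ht') y = (-1) * t * y := by
      simp
    have e2 : (Equiv.mulLeft₀ (-t) ht') y + t = t * (1 - y) := by rw [e1]; ring
    rw [e2, e1, map_mul, map_mul, map_mul]
    have e3 : quadraticChar (ZMod p) t * quadraticChar (ZMod p) t = 1 := by
      rw [← sq]; exact quadraticChar_sq_one ht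
    linear_combination (quadraticChar (ZMod p) (-1) * quadraticChar (ZMod p) y
      * quadraticChar (ZMod p) (1 - y)) * e3
  rw [Finset.sum_congr rfl fun y _ => h2 y, ← Finset.mul_sum]
  rw [jacobiSum] at h1
  rw [h1]
  have e4 : quadraticChar (ZMod p) (-1) * quadraticChar (ZMod p) (-1) = 1 := by
    rw [← sq]; exact quadraticChar_sq_one (neg_ne_zero.mpr one_ne_zero)
  linear_combination -e4

private theorem eta_sq {p : ℕ} [Fact p.Prime] :
    ∑ c : ZMod p, quadraticChar (ZMod p) c * quadraticChar (ZMod p) c = (p : ℤ) - 1 := by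
  classical
  have h : ∀ c : ZMod p, quadraticChar (ZMod p) c * quadraticChar (ZMod p) c
      = 1 - (if c = 0 then 1 else 0) := by
    intro c
    split_ifs with hc
    · subst hc; simp
    · rw [← sq, quadraticChar_sq_one hc]; simp
  rw [Finset.sum_congr rfl fun c _ => h c, Finset.sum_sub_distrib]
  simp

private theorem eta_orth {p : ℕ} [Fact p.Prime] (hp : p ≠ 2) (h h' : ZMod p) :
    ∑ c : ZMod p, quadraticChar (ZMod p) (c - h) * quadraticChar (ZMod p) (c - h')
      = (if h = h' then (p : ℤ) else 0) - 1 := by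
  rw [← Equiv.sum_comp (Equiv.addRight h)]
  split_ifs with e
  · subst e
    rw [← eta_sq (p := p)]
    refine Finset.sum_congr rfl fun c _ => ?_
    simp
  · have ht : h - h' ≠ 0 := sub_ne_zero.mpr e
    have := eta_sum hp (h - h') ht
    rw [zero_sub, ← this]
    refine Finset.sum_congr rfl fun c _ => ?_
    simp only [Equiv.coe_addRight, add_sub_cancel_right, add_sub_assoc]

private theorem eta_abs {p : ℕ} [Fact p.Prime] (c : ZMod p) :
    |quadraticChar (ZMod p) c| ≤ 1 := by
  by_cases hc : c = 0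
  · subst hc; simp
  · rcases quadraticChar_dichotomy hc with h | h <;> rw [h] <;> simp

/-- the arithmetic end -/
private theorem arith_end {p : ℕ} (hpp : p.Prime) (hp : p ≠ 2) (P A : ℤ) (hP : 0 < P)
    (k₁ k₂ c : ℕ) (hc : 1 ≤ c) (hk : 1 ≤ k₁ + k₂) (hkc : k₁ + k₂ + c ≤ p)
    (h1 : (p : ℤ) * P = P * (k₁ + k₂) * c + A * (k₁ - k₂))
    (h2 : (p : ℤ) * A = P * c * (k₁ - k₂) + (k₁ + k₂) * A) : k₁ + k₂ = 1 := by
  have h3 : (p : ℤ) * (p - (k₁ + k₂)) = c * ((k₁ + k₂) * (p - (k₁ + k₂)) + (k₁ - k₂) ^ 2) := by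
    have : P * ((p : ℤ) * (p - (k₁ + k₂)))
        = P * (c * ((k₁ + k₂) * (p - (k₁ + k₂)) + (k₁ - k₂) ^ 2)) := by
      linear_combination (p - ((k₁ : ℤ) + k₂)) * h1 + (k₁ - k₂) * h2
    exact mul_left_cancel₀ hP.ne' this
  have hpI : Prime (p : ℤ) := Nat.prime_iff_prime_int.mp hpp
  have hnd : ∀ m : ℕ, 1 ≤ m → m < p → ¬ (p : ℤ) ∣ m := by
    intro m h1 h2 h3
    have := Int.natCast_dvd_natCast.mp h3
    exact absurd (Nat.le_of_dvd h1 this) (by omega)
  have h4 : (p : ℤ) ∣ 4 * k₁ * k₂ := by
    have : (p : ℤ) ∣ c * (4 * k₁ * k₂) := by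
      refine ⟨(c * (k₁ + k₂)) - (p - (k₁ + k₂)), ?_⟩
      linear_combination h3
    rcases hpI.dvd_or_dvd this with h | h
    · exact absurd h (hnd c hc (by omega))
    · exact h
  have hp2 : ¬ (p : ℤ) ∣ 2 := by
    intro h
    have h' : p ∣ 2 := by exact_mod_cast h
    exact hp ((Nat.prime_dvd_prime_iff_eq hpp Nat.prime_two).mp h')
  have h5 : k₁ = 0 ∨ k₂ = 0 := by
    rcases hpI.dvd_or_dvd h4 with h | h
    · rcases hpI.dvd_or_dvd h with h | h
      · have : (p : ℤ) ∣ 2 * 2 := by simpa using h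
        rcases hpI.dvd_or_dvd this with h | h
        · exact absurd h hp2
        · exact absurd h hp2
      · left
        by_contra h0
        exact hnd k₁ (by omega) (by omega) h
    · right
      by_contra h0
      exact hnd k₂ (by omega) (by omega) h
  have hp0 : (0 : ℤ) < p := by exact_mod_cast hpp.pos
  have h6 : (p : ℤ) = (k₁ + k₂) * (c + 1) := by
    have : (p : ℤ) * p = p * ((k₁ + k₂) * (c + 1)) := by
      rcases h5 with h | h
      · subst h; push_cast at h3 ⊢; linear_combination h3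
      · subst h; push_cast at h3 ⊢; linear_combination h3
    exact mul_left_cancel₀ hp0.ne' this
  have h7 : p = (k₁ + k₂) * (c + 1) := by exact_mod_cast h6
  have h8 : (k₁ + k₂) ∣ p := ⟨c + 1, h7⟩
  rcases (Nat.dvd_prime hpp).mp h8 with h | h
  · exact h
  · omega

theorem cl {p : ℕ} [Fact p.Prime] (hp : p ≠ 2) (P : ℤ) (hP : 0 < P) (a d : ZMod p → ℤ)
    (ha : ∑ h, |a h| ≤ P)
    (hd : ∀ c, P * d c = ∑ h, a h * quadraticChar (ZMod p) (c - h))
    (h01 : ∀ c, d c = 0 ∨ d c = 1 ∨ d c = -1) :
    (∀ c, d c = 0) ∨ ∃ (h0 : ZMod p) (ε : ℤ), (ε = 1 ∨ ε = -1) ∧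
      ∀ c, d c = ε * quadraticChar (ZMod p) (c - h0) := by
  classical
  by_cases hz : ∀ c, d c = 0
  · exact Or.inl hz
  right
  push Not at hz
  obtain ⟨c₀, hc₀⟩ := hz
  have hdd : ∀ c, d c ≠ 0 → d c * d c = 1 := by
    intro c hc
    rcases h01 c with h | h | h
    · exact absurd h hc
    · rw [h]; norm_num
    · rw [h]; norm_num
  -- termwise bound
  have hle : ∀ c, d c ≠ 0 → ∀ h, a h * quadraticChar (ZMod p) (c - h) * d c ≤ |a h| := by
    intro c hc h
    calc a h * quadraticChar (ZMod p) (c - h) * d c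
        ≤ |a h * quadraticChar (ZMod p) (c - h) * d c| := le_abs_self _
      _ = |a h| * |quadraticChar (ZMod p) (c - h)| * |d c| := by rw [abs_mul, abs_mul]
      _ ≤ |a h| * 1 * 1 := by
          have h1 := eta_abs (c - h)
          have h2 : |d c| ≤ 1 := by
            rcases h01 c with h | h | h <;> rw [h] <;> simp
          gcongr
      _ = |a h| := by ring
  have hsum : ∀ c, d c ≠ 0 → ∑ h, a h * quadraticChar (ZMod p) (c - h) * d c = P := by
    intro c hc
    rw [← Finset.sum_mul, ← hd c, mul_assoc, hdd c hc, mul_one]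
  have hEq : ∀ c, d c ≠ 0 → ∀ h, a h * quadraticChar (ZMod p) (c - h) * d c = |a h| := by
    intro c hc
    have h1 : ∑ h, a h * quadraticChar (ZMod p) (c - h) * d c = ∑ h, |a h| :=
      le_antisymm (Finset.sum_le_sum fun h _ => hle c hc h) (by rw [hsum c hc]; exact ha)
    have h2 := (Finset.sum_eq_sum_iff_of_le fun h _ => hle c hc h).mp h1
    exact fun h => h2 h (Finset.mem_univ h)
  have hAbs : ∑ h, |a h| = P := by
    rw [← hsum c₀ hc₀]
    exact (Finset.sum_congr rfl fun h _ => hEq c₀ hc₀ h).symm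
  set C : Finset (ZMod p) := Finset.univ.filter fun c => d c ≠ 0 with hC
  set A : ℤ := ∑ h, a h with hA
  -- second moment identity
  have hId : ∀ h, ∑ c, quadraticChar (ZMod p) (c - h) * (P * d c) = p * a h - A := by
    intro h
    calc ∑ c, quadraticChar (ZMod p) (c - h) * (P * d c)
        = ∑ c, ∑ h', a h' * (quadraticChar (ZMod p) (c - h) * quadraticChar (ZMod p) (c - h')) := by
          refine Finset.sum_congr rfl fun c _ => ?_
          rw [hd c, Finset.mul_sum]
          refine Finset.sum_congr rfl fun h' _ => ?_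
          ring
      _ = ∑ h', a h' * ∑ c, quadraticChar (ZMod p) (c - h) * quadraticChar (ZMod p) (c - h') := by
          rw [Finset.sum_comm]
          refine Finset.sum_congr rfl fun h' _ => ?_
          rw [Finset.mul_sum]
      _ = ∑ h', a h' * ((if h = h' then (p : ℤ) else 0) - 1) := by
          refine Finset.sum_congr rfl fun h' _ => ?_
          rw [eta_orth hp]
      _ = ∑ h', ((if h = h' then a h' * (p : ℤ) else 0) - a h') := by
          refine Finset.sum_congr rfl fun h' _ => ?_
          split_ifs <;> ring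
      _ = p * a h - A := by
          rw [Finset.sum_sub_distrib, Finset.sum_ite_eq, if_pos (Finset.mem_univ h)]
          ring
  have hSq : ∀ h, a h * (p * a h - A) = P * C.card * |a h| := by
    intro h
    rw [← hId h, Finset.mul_sum]
    have h1 : ∀ c, a h * (quadraticChar (ZMod p) (c - h) * (P * d c))
        = if d c ≠ 0 then P * |a h| else 0 := by
      intro c
      split_ifs with hc
      · rw [← hEq c hc h]; ring
      · push Not at hc
        rw [hc]; ring
    rw [Finset.sum_congr rfl fun c _ => h1 c, ← Finset.sum_filter, Finset.sum_const, nsmul_eq_mul]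
    ring
  -- supports
  set B1 : Finset (ZMod p) := Finset.univ.filter fun h => 0 < a h with hB1
  set B2 : Finset (ZMod p) := Finset.univ.filter fun h => a h < 0 with hB2
  have hP1 : ∀ h ∈ B1, p * a h = P * C.card + A := by
    intro h hh
    have hpos : 0 < a h := (Finset.mem_filter.mp hh).2
    have := hSq h
    rw [abs_of_pos hpos] at this
    have h2 : a h * (p * a h) = a h * (P * C.card + A) := by linear_combination this
    exact mul_left_cancel₀ hpos.ne' h2
  have hP2 : ∀ h ∈ B2, p * a h = -(P * C.card) + A := by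
    intro h hh
    have hneg : a h < 0 := (Finset.mem_filter.mp hh).2
    have := hSq h
    rw [abs_of_neg hneg] at this
    have h2 : a h * (p * a h) = a h * (-(P * C.card) + A) := by linear_combination this
    exact mul_left_cancel₀ hneg.ne h2
  have hAsplit : A = ∑ h ∈ B1, a h + ∑ h ∈ B2, a h := by
    rw [hA, hB1, hB2, Finset.sum_filter, Finset.sum_filter, ← Finset.sum_add_distrib]
    refine Finset.sum_congr rfl fun h _ => ?_
    rcases lt_trichotomy (a h) 0 with h1 | h1 | h1
    · rw [if_neg (by omega), if_pos h1]; ring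
    · rw [if_neg (by omega), if_neg (by omega), h1]; ring
    · rw [if_pos h1, if_neg (by omega)]; ring
  have hPsplit : P = ∑ h ∈ B1, a h - ∑ h ∈ B2, a h := by
    rw [← hAbs, hB1, hB2, Finset.sum_filter, Finset.sum_filter, ← Finset.sum_sub_distrib]
    refine Finset.sum_congr rfl fun h _ => ?_
    rcases lt_trichotomy (a h) 0 with h1 | h1 | h1
    · rw [if_neg (by omega), if_pos h1, abs_of_neg h1]; ring
    · rw [if_neg (by omega), if_neg (by omega), h1]; simp
    · rw [if_pos h1, if_neg (by omega), abs_of_pos h1]; ring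
  have hs1 : (p : ℤ) * ∑ h ∈ B1, a h = B1.card * (P * C.card + A) := by
    rw [Finset.mul_sum, Finset.sum_congr rfl hP1, Finset.sum_const, nsmul_eq_mul]
  have hs2 : (p : ℤ) * ∑ h ∈ B2, a h = B2.card * (-(P * C.card) + A) := by
    rw [Finset.mul_sum, Finset.sum_congr rfl hP2, Finset.sum_const, nsmul_eq_mul]
  -- cardinalities
  have hd12 : Disjoint B1 B2 := by
    rw [Finset.disjoint_left]
    intro h h1 h2
    have h1 := (Finset.mem_filter.mp h1).2
    have h2 := (Finset.mem_filter.mp h2).2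
    omega
  have hdC : Disjoint (B1 ∪ B2) C := by
    rw [Finset.disjoint_left]
    intro h h1 h2
    have h2 := (Finset.mem_filter.mp h2).2
    have h3 := hEq h h2 h
    rw [sub_self, MulChar.map_zero, mul_zero, zero_mul] at h3
    have h4 : a h = 0 := abs_eq_zero.mp h3.symm
    rcases Finset.mem_union.mp h1 with h1 | h1
    · have h1 := (Finset.mem_filter.mp h1).2; omega
    · have h1 := (Finset.mem_filter.mp h1).2; omega
  have hcard : B1.card + B2.card + C.card ≤ p := by
    rw [← Finset.card_union_of_disjoint hd12, ← Finset.card_union_of_disjoint hdC]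
    calc _ ≤ (Finset.univ : Finset (ZMod p)).card := Finset.card_le_univ _
      _ = p := by rw [Finset.card_univ, ZMod.card]
  have hC1 : 1 ≤ C.card := Finset.card_pos.mpr ⟨c₀, Finset.mem_filter.mpr ⟨Finset.mem_univ _, hc₀⟩⟩
  have hk1 : 1 ≤ B1.card + B2.card := by
    by_contra h0
    have h1 : B1.card = 0 := by omega
    have h2 : B2.card = 0 := by omega
    rw [Finset.card_eq_zero] at h1 h2
    rw [h1, h2] at hPsplit
    simp at hPsplit
    omega
  have hfin := arith_end (Fact.out : p.Prime) hp P A hP B1.card B2.card C.card hC1 hk1 hcard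
    (by linear_combination (p : ℤ) * hPsplit + hs1 - hs2)
    (by linear_combination (p : ℤ) * hAsplit + hs1 + hs2)
  -- one point
  have hcardU : (B1 ∪ B2).card = 1 := by rw [Finset.card_union_of_disjoint hd12]; exact hfin
  obtain ⟨h0, hh0⟩ := Finset.card_eq_one.mp hcardU
  have hoff : ∀ h, h ≠ h0 → a h = 0 := by
    intro h hne
    by_contra h1
    have : h ∈ B1 ∪ B2 := by
      rcases lt_or_gt_of_ne h1 with h2 | h2
      · exact Finset.mem_union_right _ (Finset.mem_filter.mpr ⟨Finset.mem_univ _, h2⟩)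
      · exact Finset.mem_union_left _ (Finset.mem_filter.mpr ⟨Finset.mem_univ _, h2⟩)
    rw [hh0] at this
    exact hne (Finset.mem_singleton.mp this)
  have hPa : |a h0| = P := by
    rw [← hAbs, Finset.sum_eq_single h0 (fun h _ hne => by rw [hoff h hne]; simp)
      (fun h => absurd (Finset.mem_univ _) h)]
  have hdc : ∀ c, P * d c = a h0 * quadraticChar (ZMod p) (c - h0) := by
    intro c
    rw [hd c, Finset.sum_eq_single h0 (fun h _ hne => by rw [hoff h hne]; ring)
      (fun h => absurd (Finset.mem_univ _) h)]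
  rcases abs_choice (a h0) with h | h
  · refine ⟨h0, 1, Or.inl rfl, fun c => ?_⟩
    have h1 : a h0 = P := by rw [← hPa, h]
    have := hdc c
    rw [h1] at this
    rw [one_mul]
    exact mul_left_cancel₀ hP.ne' this
  · refine ⟨h0, -1, Or.inr rfl, fun c => ?_⟩
    have h1 : a h0 = -P := by rw [← hPa, h]; ring
    have := hdc c
    rw [h1] at this
    refine mul_left_cancel₀ hP.ne' (this.trans ?_)
    ring

end Pool.Agent.H88.E7
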