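import Pool.Agent.H88.Pl.GS
import Pool.Agent.H88.Pl.Basic

/-!
# E7 module Coef (MP_460e77_co, helper88): comparing coefficients

`gs p w = ∑ u, η u * ew w u` (`η = quadraticChar (ZMod p)`, `w` primitive; from `sum_quadratic` or Mathlib's Gauss sums).  Fix a primitive `p`-th root `w`; the `ξ` with `ξ ^ (p ^ e) = w` are primitive `p ^ (e + 1)`-th roots, there are `p ^ e` of them
(`ξ0 * ω`, `ω ^ (p ^ e) = 1`) and the sum of `ξ ^ n` over them is `0` unless `p ^ e ∣ n`, and `p ^ e * w ^ (n / p ^ e)` if `p ^ e ∣ n`.  Sum the hypothesis over these `ξ` and divide by `p ^ e`: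
`∑ c, N c * ew w c = gs p w * ∑ h, a h * ew w h` with `a h = ∑ ε m` over the `m` with `p ^ e ∣ i m` and `(i m / p ^ e : ZMod p) = h`.  So `∑ c, (N c - ∑ h, a h * η (c - h)) * ew w c = 0` for one (all) primitive `w`:
the coefficients `N c - ∑ h, a h * η (c - h)` are all equal (linear independence of `1, w, …, w ^ (p - 2)`, or use all primitive `w = ω ^ t` and Fourier inversion), and their sum over `c` is `∑ N` (`∑ c, η (c - h) = 0`).
-/

set_option autoImplicit false

namespace Pool.Agent.H88.E7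

open Finset Pool.Agent.H88.Pl

namespace CoefAux

/-- the Gauss sum as a character sum -/
lemma gs_char {p : ℕ} [Fact p.Prime] (hp : p ≠ 2) {w : ℂ} (hw : IsPrimitiveRoot w p) :
    gs p w = ∑ u : ZMod p, ((quadraticChar (ZMod p) u : ℤ) : ℂ) * ew w u := by
  classical
  have hp1 : p.Prime := Fact.out
  have hp0 : p ≠ 0 := hp1.ne_zero
  have : NeZero p := ⟨hp0⟩
  have hprim := AddChar.zmodChar_primitive_of_primitive_root p hw
  have hew : ∀ z : ZMod p, ew w z = AddChar.zmodChar p hw.pow_eq_one z := fun z => by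
    rw [ew, AddChar.zmodChar_apply]
  rw [GsAux.gs_eq hw]
  have h1 := GsAux.sum_sq_shift hp hprim 1 one_ne_zero
  simp only [one_mul, mul_one] at h1
  rw [h1]
  exact sum_congr rfl fun u _ => by rw [hew]

/-- the sum over the `p ^ e` roots above `w` -/
lemma sum_roots {p e : ℕ} [Fact p.Prime] {ξ : ℂ} (hξ : IsPrimitiveRoot ξ (p ^ (e + 1))) (n : ℕ) :
    ∑ j ∈ range (p ^ e), (ξ ^ (1 + p * j)) ^ n =
      if p ^ e ∣ n then (p ^ e : ℂ) * ew (ξ ^ (p ^ e)) ((n / p ^ e : ℕ) : ZMod p) else 0 := by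
  have hp1 : p.Prime := Fact.out
  have hpos : 0 < p ^ (e + 1) := pow_pos hp1.pos _
  have hω : IsPrimitiveRoot (ξ ^ p) (p ^ e) := hξ.pow hpos (by rw [pow_succ, mul_comm])
  have hw : IsPrimitiveRoot (ξ ^ (p ^ e)) p := hξ.pow hpos (by rw [pow_succ])
  have h1 : ∀ j : ℕ, (ξ ^ (1 + p * j)) ^ n = ξ ^ n * ((ξ ^ p) ^ n) ^ j := by
    intro j
    rw [← pow_mul, ← pow_mul, ← pow_mul, ← pow_add]
    congr 1
    ring
  simp_rw [h1]
  rw [← mul_sum]
  split_ifs with hd
  · rw [(hω.pow_eq_one_iff_dvd n).2 hd]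
    simp only [one_pow, sum_const, card_range, nsmul_eq_mul, mul_one]
    rw [ew_natCast hw.pow_eq_one, ← pow_mul, Nat.mul_div_cancel' hd]
    push_cast
    ring
  · have hne : (ξ ^ p) ^ n ≠ 1 := fun h => hd ((hω.pow_eq_one_iff_dvd n).1 h)
    have h2 : ((ξ ^ p) ^ n) ^ (p ^ e) = 1 := by
      rw [← pow_mul, mul_comm n, pow_mul, hω.pow_eq_one, one_pow]
    rw [geom_sum_eq hne, h2, sub_self, zero_div, mul_zero]

end CoefAux

open CoefAux in
theorem coef {p e : ℕ} [Fact p.Prime] (hp : p ≠ 2) {M : Type*} [Fintype M] (N : ZMod p → ℤ)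
    (ε : M → ℤ) (i : M → ℕ)
    (h : ∀ ξ : ℂ, IsPrimitiveRoot ξ (p ^ (e + 1)) →
      ∑ c, (N c : ℂ) * ew (ξ ^ (p ^ e)) c = gs p (ξ ^ (p ^ e)) * ∑ m, (ε m : ℂ) * ξ ^ (i m)) :
    ∃ a : ZMod p → ℤ, ∑ h, |a h| ≤ ∑ m, |ε m| ∧
      ∀ c, (p : ℤ) * N c = ∑ c', N c' + (p : ℤ) * ∑ h, a h * quadraticChar (ZMod p) (c - h) := by
  classical
  have hp1 : p.Prime := Fact.out
  have hp0 : p ≠ 0 := hp1.ne_zero
  have : NeZero p := ⟨hp0⟩
  have hpos : 0 < p ^ (e + 1) := pow_pos hp1.pos _
  set a : ZMod p → ℤ := fun g => ∑ m, if p ^ e ∣ i m ∧ ((i m / p ^ e : ℕ) : ZMod p) = g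
    then ε m else 0 with ha
  refine ⟨a, ?_, ?_⟩
  · -- the bound
    calc ∑ g, |a g| ≤ ∑ g, ∑ m, |if p ^ e ∣ i m ∧ ((i m / p ^ e : ℕ) : ZMod p) = g
            then ε m else 0| := sum_le_sum fun g _ => abs_sum_le_sum_abs _ _
      _ = ∑ m, ∑ g, |if p ^ e ∣ i m ∧ ((i m / p ^ e : ℕ) : ZMod p) = g
            then ε m else 0| := sum_comm
      _ ≤ ∑ m, |ε m| := by
        refine sum_le_sum fun m _ => ?_
        by_cases hd : p ^ e ∣ i m
        · rw [sum_eq_single ((i m / p ^ e : ℕ) : ZMod p)]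
          · rw [if_pos ⟨hd, rfl⟩]
          · intro g _ hg
            rw [if_neg (fun h' => hg h'.2.symm), abs_zero]
          · intro h'
            exact absurd (mem_univ _) h'
        · rw [sum_eq_zero]
          · exact abs_nonneg _
          · intro g _
            rw [if_neg (fun h' => hd h'.1), abs_zero]
  · -- the averaged identity for every primitive root above
    have hA : ∀ ξ : ℂ, IsPrimitiveRoot ξ (p ^ (e + 1)) →
        ∑ c, (N c : ℂ) * ew (ξ ^ (p ^ e)) c =
          gs p (ξ ^ (p ^ e)) * ∑ g, (a g : ℂ) * ew (ξ ^ (p ^ e)) g := by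
      intro ξ hξ
      have hw : IsPrimitiveRoot (ξ ^ (p ^ e)) p := hξ.pow hpos (by rw [pow_succ])
      have hj : ∀ j : ℕ, ∑ c, (N c : ℂ) * ew (ξ ^ (p ^ e)) c =
          gs p (ξ ^ (p ^ e)) * ∑ m, (ε m : ℂ) * (ξ ^ (1 + p * j)) ^ (i m) := by
        intro j
        have hcop : (1 + p * j).Coprime (p ^ (e + 1)) := by
          apply Nat.Coprime.pow_right
          rw [Nat.coprime_comm, Nat.Prime.coprime_iff_not_dvd hp1]
          intro hd
          have h3 : p ∣ 1 := (Nat.dvd_add_left (Dvd.intro j rfl)).1 hd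
          exact hp1.one_lt.ne' (Nat.dvd_one.1 h3)
        have h1 := h (ξ ^ (1 + p * j)) (hξ.pow_of_coprime _ hcop)
        have h2 : (ξ ^ (1 + p * j)) ^ (p ^ e) = ξ ^ (p ^ e) := by
          have h3 : (ξ ^ (1 + p * j)) ^ (p ^ e) = ξ ^ (p ^ e) * ((ξ ^ (p ^ e)) ^ p) ^ j := by
            rw [← pow_mul, ← pow_mul, ← pow_mul, ← pow_add]
            congr 1
            ring
          rw [h3, hw.pow_eq_one, one_pow, mul_one]
        rw [h2] at h1
        exact h1
      have hpe : ((p : ℂ) ^ e) ≠ 0 := pow_ne_zero _ (Nat.cast_ne_zero.2 hp0)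
      have hsum : (p ^ e : ℂ) * ∑ c, (N c : ℂ) * ew (ξ ^ (p ^ e)) c =
          gs p (ξ ^ (p ^ e)) * ∑ m, (ε m : ℂ) *
            ∑ j ∈ range (p ^ e), (ξ ^ (1 + p * j)) ^ (i m) := by
        have h1 : ∑ j ∈ range (p ^ e), ∑ c, (N c : ℂ) * ew (ξ ^ (p ^ e)) c =
            ∑ j ∈ range (p ^ e), gs p (ξ ^ (p ^ e)) * ∑ m, (ε m : ℂ) *
              (ξ ^ (1 + p * j)) ^ (i m) := sum_congr rfl fun j _ => hj j
        rw [sum_const, card_range, nsmul_eq_mul, ← mul_sum, sum_comm] at h1
        push_cast at h1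
        rw [h1]
        congr 1
        exact sum_congr rfl fun m _ => by rw [mul_sum]
      have h4 : ∑ m, (ε m : ℂ) * ∑ j ∈ range (p ^ e), (ξ ^ (1 + p * j)) ^ (i m) =
          (p ^ e : ℂ) * ∑ g, (a g : ℂ) * ew (ξ ^ (p ^ e)) g := by
        have h5 : ∀ g : ZMod p, (a g : ℂ) * ew (ξ ^ (p ^ e)) g =
            ∑ m, if p ^ e ∣ i m ∧ ((i m / p ^ e : ℕ) : ZMod p) = g
              then (ε m : ℂ) * ew (ξ ^ (p ^ e)) g else 0 := by
          intro g
          rw [ha]
          push_cast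
          rw [sum_mul]
          refine sum_congr rfl fun m _ => ?_
          split_ifs <;> simp
        simp_rw [h5]
        rw [sum_comm, mul_sum]
        refine sum_congr rfl fun m _ => ?_
        rw [sum_roots hξ]
        by_cases hd : p ^ e ∣ i m
        · rw [if_pos hd, sum_eq_single ((i m / p ^ e : ℕ) : ZMod p)]
          · rw [if_pos ⟨hd, rfl⟩]
            ring
          · intro g _ hg
            rw [if_neg (fun h' => hg h'.2.symm)]
          · intro h'
            exact absurd (mem_univ _) h'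
        · rw [if_neg hd, sum_eq_zero, mul_zero, mul_zero]
          intro g _
          rw [if_neg (fun h' => hd h'.1)]
      rw [h4] at hsum
      have h6 : (p ^ e : ℂ) * (∑ c, (N c : ℂ) * ew (ξ ^ (p ^ e)) c) =
          (p ^ e : ℂ) * (gs p (ξ ^ (p ^ e)) * ∑ g, (a g : ℂ) * ew (ξ ^ (p ^ e)) g) := by
        rw [hsum]; ring
      exact mul_left_cancel₀ hpe h6
    -- coefficients
    set b : ZMod p → ℤ := fun c => N c - ∑ g, a g * quadraticChar (ZMod p) (c - g) with hb
    have hB : ∀ ξ : ℂ, IsPrimitiveRoot ξ (p ^ (e + 1)) →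
        ∑ c, (b c : ℂ) * ew (ξ ^ (p ^ e)) c = 0 := by
      intro ξ hξ
      have hw : IsPrimitiveRoot (ξ ^ (p ^ e)) p := hξ.pow hpos (by rw [pow_succ])
      set w := ξ ^ (p ^ e) with hwdef
      have h1 := hA ξ hξ
      rw [← hwdef, gs_char hp hw] at h1
      have h2 : (∑ u : ZMod p, ((quadraticChar (ZMod p) u : ℤ) : ℂ) * ew w u) *
          ∑ g, (a g : ℂ) * ew w g =
          ∑ c, (∑ g, (a g : ℂ) * ((quadraticChar (ZMod p) (c - g) : ℤ) : ℂ)) * ew w c := by
        rw [mul_sum]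
        simp_rw [sum_mul]
        rw [sum_comm (s := (univ : Finset (ZMod p)))]
        rw [sum_comm (s := (univ : Finset (ZMod p)))]
        conv_rhs => rw [sum_comm]
        refine sum_congr rfl fun g _ => ?_
        rw [← Equiv.sum_comp (Equiv.addRight g)
          (fun c => (a g : ℂ) * ((quadraticChar (ZMod p) (c - g) : ℤ) : ℂ) * ew w c)]
        refine sum_congr rfl fun u _ => ?_
        simp only [Equiv.coe_addRight, add_sub_cancel_right]
        rw [ew_add hw.pow_eq_one]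
        ring
      rw [h2] at h1
      have h3 : ∑ c, (b c : ℂ) * ew w c = ∑ c, (N c : ℂ) * ew w c -
          ∑ c, (∑ g, (a g : ℂ) * ((quadraticChar (ZMod p) (c - g) : ℤ) : ℂ)) * ew w c := by
        rw [← sum_sub_distrib]
        refine sum_congr rfl fun c _ => ?_
        rw [hb]
        push_cast
        ring
      rw [h3, h1, sub_self]
    -- Fourier inversion
    obtain ⟨ξ0, hξ0⟩ : ∃ ξ0 : ℂ, IsPrimitiveRoot ξ0 (p ^ (e + 1)) :=
      ⟨_, Complex.isPrimitiveRoot_exp _ hpos.ne'⟩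
    have hw0 : IsPrimitiveRoot (ξ0 ^ (p ^ e)) p := hξ0.pow hpos (by rw [pow_succ])
    set w0 := ξ0 ^ (p ^ e) with hw0def
    have hC : ∀ t : ZMod p, t ≠ 0 → ∑ c, (b c : ℂ) * ew w0 (t * c) = 0 := by
      intro t ht
      have hcop : (t.val).Coprime (p ^ (e + 1)) := by
        apply Nat.Coprime.pow_right
        rw [Nat.coprime_comm, Nat.Prime.coprime_iff_not_dvd hp1]
        intro hd
        apply ht
        have := (ZMod.natCast_eq_zero_iff _ _).2 hd
        rwa [ZMod.natCast_zmod_val] at this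
      have h1 := hB (ξ0 ^ t.val) (hξ0.pow_of_coprime _ hcop)
      have h2 : (ξ0 ^ t.val) ^ (p ^ e) = ew w0 t := by
        rw [ew, hw0def, ← pow_mul, ← pow_mul, mul_comm]
      rw [h2] at h1
      rw [← h1]
      exact sum_congr rfl fun c _ => by rw [ew_ew hw0.pow_eq_one]
    have hD : ∀ d : ZMod p, (p : ℂ) * (b d : ℂ) = ∑ c, (b c : ℂ) := by
      intro d
      have h1 : ∑ t : ZMod p, ew w0 (-(t * d)) * ∑ c, (b c : ℂ) * ew w0 (t * c) =
          (p : ℂ) * (b d : ℂ) := by
        simp_rw [mul_sum]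
        rw [sum_comm]
        have h2 : ∀ c : ZMod p, ∑ t : ZMod p, ew w0 (-(t * d)) * ((b c : ℂ) * ew w0 (t * c)) =
            if c = d then (p : ℂ) * (b d : ℂ) else 0 := by
          intro c
          have h3 : ∑ t : ZMod p, ew w0 (-(t * d)) * ((b c : ℂ) * ew w0 (t * c)) =
              (b c : ℂ) * ∑ t : ZMod p, ew w0 (t * (c - d)) := by
            rw [mul_sum]
            refine sum_congr rfl fun t _ => ?_
            rw [mul_sub, sub_eq_add_neg, ew_add hw0.pow_eq_one]
            ring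
          rw [h3, sum_ew_mul hw0]
          by_cases hcd : c = d
          · subst hcd
            rw [if_pos (sub_self c), if_pos rfl, mul_comm]
          · rw [if_neg (sub_ne_zero.2 hcd), if_neg hcd, mul_zero]
        simp_rw [h2]
        rw [sum_ite_eq' univ d]
        simp
      rw [← h1, sum_eq_single (0 : ZMod p)]
      · simp only [zero_mul, neg_zero, ew_zero, one_mul, mul_one]
      · intro t _ ht
        rw [hC t ht, mul_zero]
      · intro h'
        exact absurd (mem_univ _) h'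
    have hE : ∀ d : ZMod p, (p : ℤ) * b d = ∑ c, b c := by
      intro d
      have := hD d
      exact_mod_cast this
    have hF : ∑ c, b c = ∑ c, N c := by
      have h1 : ∀ g : ZMod p, ∑ c, quadraticChar (ZMod p) (c - g) = 0 := by
        intro g
        rw [← Equiv.sum_comp (Equiv.addRight g) (fun c => quadraticChar (ZMod p) (c - g))]
        simp only [Equiv.coe_addRight, add_sub_cancel_right]
        exact quadraticChar_sum_zero (GsAux.ringChar_ne hp)
      rw [hb]
      simp only [sum_sub_distrib]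
      rw [sum_comm]
      simp_rw [← mul_sum, h1, mul_zero, sum_const_zero, sub_zero]
    intro c
    have h1 := hE c
    rw [hF, hb] at h1
    simp only at h1
    linear_combination h1

end Pool.Agent.H88.E7
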