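import Pool.Agent.H88.T7.Odd

/-!
# E7 (MP_460e77_co, helper88): `|p G| = p ^ s`, `r = 2 s + 1 ≤ p`, is impossible: definitions

`f : H → K` planar, `|H| = |K| = p ^ (2 s + 1)`, `G = H × K`, `gr f x = (x, f x)`, `sl p f v` = the `x` with
`p • gr f x = v`, `PG p H K` = `p G` (all from `Pool/Agent/H16/RB`).
-/

set_option autoImplicit false

namespace Pool.Agent.H88.E7

open Finset Pool.Agent.H16.RB Pool.Agent.H88.Pl
open scoped Classical

/-- the character sum over the points `y x`, `x ∈ S`, of the functional `ψ` -/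
noncomputable def TT {p : ℕ} {X G : Type*} [AddCommGroup G] (w : ℂ) (y : X → G) (S : Finset X)
    (ψ : G →+ ZMod p) : ℂ := ∑ x ∈ S, ew w (ψ (y x))

/-- the pairs of indices in `S` whose points cannot be separated by functionals -/
noncomputable def P2 (p : ℕ) {X G : Type*} [AddCommGroup G] (y : X → G) (S : Finset X) :
    Finset (X × X) :=
  (S ×ˢ S).filter fun z => ∀ l : G →+ ZMod p, l (y z.1) = l (y z.2)

/-- the quadruples of indices in `S` whose differences cannot be separated by functionals -/
noncomputable def P4 (p : ℕ) {X G : Type*} [AddCommGroup G] (y : X → G) (S : Finset X) :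
    Finset ((X × X) × (X × X)) :=
  ((S ×ˢ S) ×ˢ (S ×ˢ S)).filter fun z =>
    ∀ l : G →+ ZMod p, l (y z.1.1 - y z.1.2) = l (y z.2.1 - y z.2.2)

end Pool.Agent.H88.E7
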