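import Pool.Agent.H88.E7.Defs
import Pool.Agent.H88.E7.Coef
import Pool.Agent.H88.E7.Hom
import Pool.Agent.H88.Pl.AR
import Pool.Agent.H88.Pl.Planar

/-!
# E7 module Gs (MP_460e77_co, helper88): the number of points of a section in terms of Legendre symbols

`A = (p G : AddSubgroup)` (range of multiplication by `p`), `p ^ (e + 1) • A = 0` for some `e` (`G` is a `p`-group).  For `m : A →+ ZMod (p ^ (e + 1))` and a primitive `p ^ (e + 1)`-th root `ξ`:
`X m ξ = ∑ x, ξ ^ (a m x)`, `a m x = p ^ e * (ψ (gr f x)).val + (m (p • gr f x)).val`, is the sum of `χ (f x) * ρ x` with `χ k = ξ ^ (a of (0, k))`, `ρ h = ξ ^ (a of (h, 0))`, `m` vanishes on `p • (0, k) = 0` (`hK1`),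
so `χ k = ew (ξ ^ (p ^ e)) (ψ (0, k))` is not constant: `planar_char` gives `‖X m ξ‖ ^ 2 = p ^ (2 s + 1)` for all primitive `ξ`, `arith` (Pl/AR.lean) gives `X m ξ = ε m * ξ ^ (j m) * gs p (ξ ^ (p ^ e)) ^ (2 s + 1)`.
`hom_orth`: `∑ m, ξ ^ (- m v) * X m ξ = p ^ s * ∑ x ∈ sl p f v, ew (ξ ^ (p ^ e)) (ψ (gr f x)) = p ^ s * ∑ c, N c * ew (ξ ^ (p ^ e)) c`; `gs ^ (2 s) = ((-1) ^ ((p - 1) / 2) * p) ^ s` (`gs_sq`), divide by `p ^ s` and apply `coef` with
`ε' m = ± ε m`, `i m = j m + (p ^ (e + 1) - (m v).val)`, number of `m` = `p ^ s` (`hom_orth` with `u = 0`).  `∑ N = (sl p f v).card = p ^ (s + 1)`, divide by `p`.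
-/

set_option autoImplicit false

namespace Pool.Agent.H88.E7

open Finset Pool.Agent.H16.RB Pool.Agent.H88.Pl
open scoped Classical

private theorem Gs_pow_val_add {N : ℕ} [NeZero N] {ξ : ℂ} (hξ : ξ ^ N = 1) (x y : ZMod N) :
    ξ ^ (x + y).val = ξ ^ x.val * ξ ^ y.val := by
  have h1 := AddChar.map_add_eq_mul (AddChar.zmodChar N hξ) x y
  rwa [AddChar.zmodChar_apply, AddChar.zmodChar_apply, AddChar.zmodChar_apply] at h1

private theorem Gs_card {p : ℕ} {H K : Type*} [AddCommGroup H] [AddCommGroup K] [Fintype H]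
    [Fintype K] : Nat.card (nsmulAddMonoidHom p : H × K →+ H × K).range = (PG p H K).card := by
  have h1 : ((nsmulAddMonoidHom p : H × K →+ H × K).range : Set (H × K)) = ↑(PG p H K) := by
    ext z
    simp only [AddMonoidHom.coe_range, Set.mem_range, nsmulAddMonoidHom_apply, PG, coe_image,
      coe_univ, Set.image_univ]
  have h2 : Nat.card (nsmulAddMonoidHom p : H × K →+ H × K).range =
      Nat.card ((nsmulAddMonoidHom p : H × K →+ H × K).range : Set (H × K)) := rfl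
  rw [h2, h1, Nat.card_coe_set_eq, Set.ncard_coe_finset]

theorem gauss_form {p s : ℕ} [Fact p.Prime] (hp : p ≠ 2) {H K : Type*} [AddCommGroup H]
    [AddCommGroup K] [Fintype H] [Fintype K] (hH : Fintype.card H = p ^ (2 * s + 1)) (f : H → K)
    (hf : IsPlanar f) (hK1 : ∀ k : K, p • k = 0) (hκ : (PG p H K).card = p ^ s)
    (ψ : H × K →+ ZMod p) (hψ : ∃ k : K, ψ (0, k) ≠ 0) (v : H × K) (hv : v ∈ PG p H K)
    (hn : (sl p f v).card = p ^ (s + 1)) :
    ∃ a : ZMod p → ℤ, ∑ h, |a h| ≤ (p : ℤ) ^ s ∧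
      ∀ c : ZMod p, (((sl p f v).filter fun x => ψ (gr f x) = c).card : ℤ) =
        (p : ℤ) ^ s + ∑ h, a h * quadraticChar (ZMod p) (c - h) := by
  have hpp : p.Prime := Fact.out
  have hp0 : (p : ℂ) ≠ 0 := Nat.cast_ne_zero.2 hpp.ne_zero
  obtain ⟨e, he⟩ : ∃ e : ℕ, e = 2 * s + 1 := ⟨_, rfl⟩
  have hNpos : 0 < p ^ (e + 1) := pow_pos hpp.pos _
  have : NeZero (p ^ (e + 1)) := ⟨hNpos.ne'⟩
  obtain ⟨A, hAdef⟩ : ∃ A : AddSubgroup (H × K), A = (nsmulAddMonoidHom p : H × K →+ H × K).range :=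
    ⟨_, rfl⟩
  have hmem : ∀ g : H × K, p • g ∈ A := by
    intro g
    rw [hAdef]
    exact ⟨g, rfl⟩
  have hvA : v ∈ A := by
    obtain ⟨g, -, rfl⟩ := mem_image.1 hv
    exact hmem g
  have hcardA : Nat.card A = p ^ s := by
    rw [hAdef, Gs_card, hκ]
  have hA : ∀ a : A, p ^ (e + 1) • a = 0 := by
    rintro ⟨z, hz⟩
    rw [hAdef] at hz
    obtain ⟨g, rfl⟩ := hz
    apply Subtype.ext
    show p ^ (e + 1) • (p • g) = 0
    refine Prod.ext ?_ ?_
    · show p ^ (e + 1) • (p • g.1) = 0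
      have h1 : p ^ e • (p • g.1) = 0 := by
        rw [he, ← hH]
        exact card_nsmul_eq_zero
      rw [pow_succ, mul_comm, mul_nsmul', h1, nsmul_zero]
    · show p ^ (e + 1) • (p • g.2) = 0
      rw [hK1, nsmul_zero]
  -- the sums
  let M : Type _ := A →+ ZMod (p ^ (e + 1))
  have : Finite M := Finite.of_injective (fun m : M => (m : A → ZMod (p ^ (e + 1))))
    DFunLike.coe_injective
  have : Fintype M := Fintype.ofFinite M
  let u : H → A := fun x => ⟨p • gr f x, hmem _⟩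
  let a : M → H → ℕ := fun m x => p ^ e * (ψ (gr f x)).val + (m (u x)).val
  have hw : ∀ ξ : ℂ, IsPrimitiveRoot ξ (p ^ (e + 1)) → IsPrimitiveRoot (ξ ^ (p ^ e)) p :=
    fun ξ hξ => hξ.pow hNpos (by rw [pow_succ])
  have ha : ∀ ξ : ℂ, ∀ m x, ξ ^ (a m x) = ew (ξ ^ (p ^ e)) (ψ (gr f x)) * ξ ^ (m (u x)).val := by
    intro ξ m x
    show ξ ^ (p ^ e * (ψ (gr f x)).val + (m (u x)).val) = _
    rw [pow_add, pow_mul]
    rfl
  have hnorm : ∀ m : M, ∀ ξ : ℂ, IsPrimitiveRoot ξ (p ^ (e + 1)) →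
      ‖∑ x, ξ ^ (a m x)‖ ^ 2 = (p : ℝ) ^ (2 * s + 1) := by
    intro m ξ hξ
    have hwp := (hw ξ hξ).pow_eq_one
    have hξn : ‖ξ‖ = 1 := Complex.norm_eq_one_of_pow_eq_one hξ.pow_eq_one hNpos.ne'
    let q : H → A := fun h => ⟨p • ((h, 0) : H × K), hmem _⟩
    have hq : ∀ x y, q (x + y) = q x + q y := by
      intro x y
      apply Subtype.ext
      show p • ((x + y, 0) : H × K) = p • ((x, 0) : H × K) + p • ((y, 0) : H × K)
      rw [← nsmul_add]
      simp
    have hqu : ∀ x, u x = q x := by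
      intro x
      apply Subtype.ext
      show p • ((x, f x) : H × K) = p • ((x, 0) : H × K)
      refine Prod.ext rfl ?_
      show p • f x = p • (0 : K)
      rw [hK1, hK1]
    have h1 := planar_char f hf (fun k => ew (ξ ^ (p ^ e)) (ψ (0, k)))
      (fun x y => by
        rw [← ew_add hwp, ← map_add]
        simp)
      (fun x => norm_ew hwp _)
      (by
        obtain ⟨k, hk⟩ := hψ
        exact ⟨k, fun h => hk ((ew_eq_one_iff (hw ξ hξ) _).1 h)⟩)
      (fun h => ew (ξ ^ (p ^ e)) (ψ (h, 0)) * ξ ^ (m (q h)).val)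
      (fun x y => by
        have h2 : ψ (x + y, 0) = ψ (x, 0) + ψ (y, 0) := by
          rw [← map_add]
          simp
        have h3 : ew (ξ ^ (p ^ e)) (ψ (x + y, 0)) =
            ew (ξ ^ (p ^ e)) (ψ (x, 0)) * ew (ξ ^ (p ^ e)) (ψ (y, 0)) := by
          rw [h2, ew_add hwp]
        have h4 : ξ ^ (m (q (x + y))).val = ξ ^ (m (q x)).val * ξ ^ (m (q y)).val := by
          rw [hq, map_add, Gs_pow_val_add hξ.pow_eq_one]
        show ew (ξ ^ (p ^ e)) (ψ (x + y, 0)) * ξ ^ (m (q (x + y))).val = _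
        rw [h3, h4]
        ring)
      (fun x => by
        rw [norm_mul, norm_ew hwp, norm_pow, hξn, one_pow, one_mul])
    rw [hH] at h1
    have h5 : ∑ x, ξ ^ (a m x) = ∑ x, ew (ξ ^ (p ^ e)) (ψ (0, f x)) *
        (ew (ξ ^ (p ^ e)) (ψ (x, 0)) * ξ ^ (m (q x)).val) := by
      refine sum_congr rfl fun x _ => ?_
      have h6 : ψ (gr f x) = ψ (0, f x) + ψ (x, 0) := by
        rw [← map_add]
        simp [gr]
      rw [ha, hqu, h6, ew_add hwp]
      ring
    rw [h5, h1]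
    push_cast
    rfl
  choose ε j hε hj using fun m : M => arith hp (e := e + 1) (by omega) (2 * s + 1) (a m) (hnorm m)
  -- orthogonality
  obtain ⟨N, hNdef⟩ : ∃ N : ZMod p → ℤ, N = fun c =>
      (((sl p f v).filter fun x => ψ (gr f x) = c).card : ℤ) := ⟨_, rfl⟩
  obtain ⟨v', hv'⟩ : ∃ v' : A, (v' : H × K) = v := ⟨⟨v, hvA⟩, rfl⟩
  obtain ⟨κ, hκdef⟩ : ∃ κ : ℤ, κ = ((-1) ^ ((p - 1) / 2)) ^ s := ⟨_, rfl⟩
  have hκ1 : |κ| = 1 := by
    rw [hκdef, abs_pow, abs_pow, abs_neg, abs_one, one_pow, one_pow]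
  have hkey : ∀ ξ : ℂ, IsPrimitiveRoot ξ (p ^ (e + 1)) →
      ∑ c, (N c : ℂ) * ew (ξ ^ (p ^ e)) c =
        gs p (ξ ^ (p ^ e)) * ∑ m : M, ((κ * ε m : ℤ) : ℂ) * ξ ^ (j m + (-(m v')).val) := by
    intro ξ hξ
    have hwp := (hw ξ hξ).pow_eq_one
    have h1 : ∑ m : M, ξ ^ (-(m v')).val * ∑ x, ξ ^ (a m x) =
        (p : ℂ) ^ s * ∑ c, (N c : ℂ) * ew (ξ ^ (p ^ e)) c := by
      have h2 : ∑ m : M, ξ ^ (-(m v')).val * ∑ x, ξ ^ (a m x) =
          ∑ x, ew (ξ ^ (p ^ e)) (ψ (gr f x)) * ∑ m : M, ξ ^ (m (u x - v')).val := by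
        simp_rw [mul_sum]
        rw [sum_comm]
        refine sum_congr rfl fun x _ => sum_congr rfl fun m _ => ?_
        rw [ha, sub_eq_add_neg, map_add, map_neg, Gs_pow_val_add hξ.pow_eq_one]
        ring
      have h3 : ∀ x, ∑ m : M, ξ ^ (m (u x - v')).val =
          if p • gr f x = v then (p : ℂ) ^ s else 0 := by
        intro x
        have h4 := hom_orth hA hξ (u x - v')
        rw [hcardA] at h4
        have h5 : (u x - v' = 0) ↔ p • gr f x = v := by
          rw [sub_eq_zero]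
          constructor
          · intro h
            rw [← hv', ← h]
          · intro h
            apply Subtype.ext
            rw [hv']
            exact h
        rw [h4]
        push_cast
        exact if_congr h5 rfl rfl
      rw [h2]
      simp_rw [h3]
      have h6 : ∑ c, (N c : ℂ) * ew (ξ ^ (p ^ e)) c =
          ∑ x ∈ sl p f v, ew (ξ ^ (p ^ e)) (ψ (gr f x)) := by
        rw [← sum_fiberwise (sl p f v) (fun x => ψ (gr f x))]
        refine sum_congr rfl fun c _ => ?_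
        rw [sum_congr rfl (g := fun _ => ew (ξ ^ (p ^ e)) c)
          (fun x hx => by rw [(mem_filter.1 hx).2]), sum_const, nsmul_eq_mul, hNdef]
        push_cast
        rfl
      rw [h6, mul_sum, sl, sum_filter]
      refine sum_congr rfl fun x _ => ?_
      split_ifs
      · ring
      · ring
    have h7 : ∑ m : M, ξ ^ (-(m v')).val * ∑ x, ξ ^ (a m x) =
        (p : ℂ) ^ s * (gs p (ξ ^ (p ^ e)) *
          ∑ m : M, ((κ * ε m : ℤ) : ℂ) * ξ ^ (j m + (-(m v')).val)) := by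
      have h8 : gs p (ξ ^ (p ^ e)) ^ (2 * s + 1) =
          (p : ℂ) ^ s * (gs p (ξ ^ (p ^ e)) * (κ : ℂ)) := by
        rw [pow_succ, pow_mul, gs_sq hp (hw ξ hξ), mul_pow, hκdef]
        push_cast
        ring
      rw [mul_sum, mul_sum]
      refine sum_congr rfl fun m _ => ?_
      have h9 := hj m ξ hξ
      rw [Nat.add_sub_cancel, h8] at h9
      have h10 : ξ ^ (j m + (-(m v')).val) = ξ ^ (j m) * ξ ^ (-(m v')).val := pow_add _ _ _
      rw [h9, h10]
      push_cast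
      ring
    rw [h1] at h7
    exact mul_left_cancel₀ (pow_ne_zero _ hp0) h7
  obtain ⟨b, hb1, hb2⟩ := coef hp N (fun m : M => κ * ε m) (fun m => j m + (-(m v')).val) hkey
  refine ⟨b, ?_, ?_⟩
  · have hM : (Fintype.card M : ℤ) = (p : ℤ) ^ s := by
      obtain ⟨ξ0, hξ0⟩ : ∃ ξ0 : ℂ, IsPrimitiveRoot ξ0 (p ^ (e + 1)) :=
        ⟨_, Complex.isPrimitiveRoot_exp _ hNpos.ne'⟩
      have h1 := hom_orth hA hξ0 (0 : A)
      rw [if_pos rfl, hcardA] at h1
      simp only [map_zero, ZMod.val_zero, pow_zero, sum_const, card_univ, nsmul_eq_mul,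
        mul_one] at h1
      have h2 : Fintype.card M = p ^ s := by exact_mod_cast h1
      rw [h2]
      push_cast
      rfl
    refine hb1.trans ?_
    have h3 : ∀ m : M, |κ * ε m| = 1 := by
      intro m
      rw [abs_mul, hκ1, one_mul]
      rcases hε m with h | h
      · rw [h, abs_one]
      · rw [h, abs_neg, abs_one]
    rw [sum_congr rfl fun m _ => h3 m, sum_const, card_univ, nsmul_eq_mul, mul_one, hM]
  · intro c
    have h1 := hb2 c
    have h2 : ∑ c', N c' = (p : ℤ) ^ (s + 1) := by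
      rw [hNdef]
      have h3 := card_eq_sum_card_fiberwise (s := sl p f v) (t := (univ : Finset (ZMod p)))
        (f := fun x => ψ (gr f x)) (fun x _ => mem_univ _)
      rw [hn] at h3
      show ∑ c', (((sl p f v).filter fun x => ψ (gr f x) = c').card : ℤ) = (p : ℤ) ^ (s + 1)
      exact_mod_cast h3.symm
    rw [h2, hNdef] at h1
    have hp0' : (p : ℤ) ≠ 0 := Nat.cast_ne_zero.2 hpp.ne_zero
    apply mul_left_cancel₀ hp0'
    rw [mul_add, ← pow_succ']
    exact h1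

end Pool.Agent.H88.E7
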