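import Pool.Agent.H88.E7.Defs

/-!
# E7 module Pairs (MP_460e77_co, helper88): counting pairs and quadruples in a slice

`(x, x') ∈ P2` iff `x, x'` are in the slice and `gr f x - gr f x' ∈ p G` (`sep`: an element killed by all functionals is in `p G`, see `coll_of_cls` in Pool/Agent/H16/RB/T2b.lean; functionals kill `p G`).
`P2_ge`: the diagonal.  `P2_lt`: the pairs of `P2` with `x ≠ x'` are in `coll p f`, whose cardinality is `< p ^ s` (`card_coll'` in T7/Cnt.lean).
`P4_le`: fix `(x1, x2)`; if it is in `P2` then `(x3, x4) ∈ P2`; otherwise `gr f x3 - gr f x4 = gr f x1 - gr f x2 - e` with `e ∈ p G`, `p • e = 0` (same slice), and `(x3, x4)` is determined by `e`: the difference `g` is not `0` (else `(x1, x2) ∈ P2`),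
`g.1 = 0` is impossible (`x3 = x4`), and for `g.1 ≠ 0` there is at most one pair (planar, injectivity).  `exists_coll`: `0 ≠ h`, `h = p • h'`, `p • h = 0`: `f (h + x) - f x = 0` has a solution (surjectivity), `(h + x, x)` is in `P2` of the slice of `x`, off the diagonal.
`simple_lt`: the `x` in the slice with `cls ≠ 1` (as `coll_two` in T7/Cnt.lean): for such `x` there is `y x ≠ x` in its class, `x ↦ (x, y x)` is injective into `coll p f`.
-/

set_option autoImplicit false

namespace Pool.Agent.H88.E7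

open Finset Pool.Agent.H16.RB Pool.Agent.H88.Pl
open scoped Classical

variable {p : ℕ} [Fact p.Prime] {H K : Type*} [AddCommGroup H] [AddCommGroup K] [Fintype H]
  [Fintype K] {f : H → K}

omit [Fact p.Prime] [Fintype K] in
private theorem mem_sl' {v : H × K} {x : H} : x ∈ sl p f v ↔ p • gr f x = v := by
  simp [sl]

omit [Fintype K] in
private theorem mem_P2 {v : H × K} {z : H × H} : z ∈ P2 p (gr f) (sl p f v) ↔
    (z.1 ∈ sl p f v ∧ z.2 ∈ sl p f v) ∧ ∀ l : H × K →+ ZMod p, l (gr f z.1) = l (gr f z.2) := by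
  rw [P2, mem_filter, mem_product]

omit [Fact p.Prime] in
private theorem coll_lt {s : ℕ} (hf : IsPlanar f)
    (hκ : Nat.card (Set.range fun g : H × K => p • g) = p ^ s) : (coll p f).card < p ^ s := by
  have h := Pool.Agent.H88.T7.card_coll' (p := p) hf hκ
  have h1 : 0 < (univ.image fun k : K => p • k).card :=
    card_pos.2 ⟨p • (0 : K), mem_image.2 ⟨0, mem_univ _, rfl⟩⟩
  omega

omit [Fintype H] [Fintype K] in
private theorem pl_inj (hf : IsPlanar f) {a b a' b' : H} (hab : a ≠ b)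
    (h : gr f a - gr f b = gr f a' - gr f b') : a = a' ∧ b = b' := by
  have h1 : a - b = a' - b' := congrArg Prod.fst h
  have h2 : f a - f b = f a' - f b' := congrArg Prod.snd h
  have h3 : b = b' := by
    refine (hf (a - b) (sub_ne_zero.2 hab)).1 ?_
    change f (a - b + b) - f b = f (a - b + b') - f b'
    rw [sub_add_cancel, h2, h1, sub_add_cancel]
  refine ⟨?_, h3⟩
  rw [← h3] at h1
  exact sub_left_injective h1

theorem P2_ge (v : H × K) : (sl p f v).card ≤ (P2 p (gr f) (sl p f v)).card := by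
  refine card_le_card_of_injOn (fun x => (x, x)) ?_ ?_
  · intro x hx
    exact mem_coe.2 (mem_P2.2 ⟨⟨mem_coe.1 hx, mem_coe.1 hx⟩, fun _ => rfl⟩)
  · intro a _ b _ hab
    exact (Prod.mk.inj hab).1

theorem P2_lt {s : ℕ} (hf : IsPlanar f)
    (hκ : Nat.card (Set.range fun g : H × K => p • g) = p ^ s) (v : H × K) :
    (P2 p (gr f) (sl p f v)).card < (sl p f v).card + p ^ s := by
  have h1 := card_filter_add_card_filter_not (s := P2 p (gr f) (sl p f v))
    (fun z : H × H => z.1 = z.2)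
  have h2 : ((P2 p (gr f) (sl p f v)).filter fun z : H × H => z.1 = z.2).card ≤
      (sl p f v).card := by
    refine card_le_card_of_injOn (fun z => z.1) ?_ ?_
    · intro z hz
      exact mem_coe.2 (mem_P2.1 (mem_filter.1 (mem_coe.1 hz)).1).1.1
    · intro z hz w hw hzw
      have e1 := (mem_filter.1 (mem_coe.1 hz)).2
      have e2 := (mem_filter.1 (mem_coe.1 hw)).2
      exact Prod.ext hzw (e1.symm.trans (hzw.trans e2))
  have h3 : ((P2 p (gr f) (sl p f v)).filter fun z : H × H => ¬ z.1 = z.2).card ≤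
      (coll p f).card := by
    refine card_le_card fun z hz => ?_
    obtain ⟨h4, h5⟩ := mem_filter.1 hz
    have h6 := (mem_P2.1 h4).2
    obtain ⟨g', hg'⟩ := sep (p := p) (gr f z.1 - gr f z.2) (fun l => by
      rw [map_sub, h6 l, sub_self])
    simp only [coll, mem_filter, mem_univ, true_and]
    exact ⟨h5, g', hg'⟩
  have h4 := coll_lt hf hκ
  omega

omit [Fintype K] in
private theorem P4_le_sum (v : H × K) : (P4 p (gr f) (sl p f v)).card ≤
    ∑ a ∈ sl p f v ×ˢ sl p f v, ((sl p f v ×ˢ sl p f v).filter fun b =>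
      ∀ l : H × K →+ ZMod p, l (gr f a.1 - gr f a.2) = l (gr f b.1 - gr f b.2)).card := by
  rw [card_eq_sum_card_fiberwise (f := Prod.fst) (t := sl p f v ×ˢ sl p f v)
    (s := P4 p (gr f) (sl p f v))]
  · refine sum_le_sum fun a _ => ?_
    refine card_le_card_of_injOn Prod.snd ?_ ?_
    · intro z hz
      obtain ⟨h1, h2⟩ := mem_filter.1 (mem_coe.1 hz)
      obtain ⟨h3, h4⟩ := mem_filter.1 h1
      refine mem_coe.2 (mem_filter.2 ⟨(mem_product.1 h3).2, fun l => ?_⟩)
      rw [← h2]
      exact h4 l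
    · intro z hz w hw hzw
      have e1 := (mem_filter.1 (mem_coe.1 hz)).2
      have e2 := (mem_filter.1 (mem_coe.1 hw)).2
      exact Prod.ext (e1.trans e2.symm) hzw
  · intro z hz
    exact mem_coe.2 (mem_product.1 (mem_filter.1 (mem_coe.1 hz)).1).1

omit [Fintype K] in
private theorem cnt_P2 (v : H × K) (a : H × H)
    (ha : ∀ l : H × K →+ ZMod p, l (gr f a.1) = l (gr f a.2)) :
    ((sl p f v ×ˢ sl p f v).filter fun b =>
      ∀ l : H × K →+ ZMod p, l (gr f a.1 - gr f a.2) = l (gr f b.1 - gr f b.2)).card ≤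
    (P2 p (gr f) (sl p f v)).card := by
  refine card_le_card fun b hb => ?_
  obtain ⟨h1, h2⟩ := mem_filter.1 hb
  refine mem_filter.2 ⟨h1, fun l => ?_⟩
  have h3 := h2 l
  rw [map_sub, ha l, sub_self, map_sub] at h3
  exact sub_eq_zero.1 h3.symm

private theorem cnt_not (hf : IsPlanar f) (v : H × K) (a : H × H)
    (ha : a ∈ sl p f v ×ˢ sl p f v)
    (hna : ¬ ∀ l : H × K →+ ZMod p, l (gr f a.1) = l (gr f a.2)) :
    ((sl p f v ×ˢ sl p f v).filter fun b =>
      ∀ l : H × K →+ ZMod p, l (gr f a.1 - gr f a.2) = l (gr f b.1 - gr f b.2)).card ≤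
    ((PG p H K).filter fun g => p • g = 0).card := by
  have hne : ∀ b ∈ (sl p f v ×ˢ sl p f v).filter fun b =>
      ∀ l : H × K →+ ZMod p, l (gr f a.1 - gr f a.2) = l (gr f b.1 - gr f b.2), b.1 ≠ b.2 := by
    intro b hb hbb
    refine hna fun l => ?_
    have h2 := (mem_filter.1 hb).2 l
    rw [hbb, sub_self, map_zero, map_sub] at h2
    exact sub_eq_zero.1 h2
  refine card_le_card_of_injOn (fun b => gr f a.1 - gr f a.2 - (gr f b.1 - gr f b.2)) ?_ ?_
  · intro b hb
    obtain ⟨h1, h2⟩ := mem_filter.1 (mem_coe.1 hb)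
    obtain ⟨g', hg'⟩ := sep (p := p) (gr f a.1 - gr f a.2 - (gr f b.1 - gr f b.2)) (fun l => by
      rw [map_sub, h2 l, sub_self])
    refine mem_coe.2 (mem_filter.2 ⟨mem_image.2 ⟨g', mem_univ _, hg'⟩, ?_⟩)
    have e1 := mem_sl'.1 (mem_product.1 ha).1
    have e2 := mem_sl'.1 (mem_product.1 ha).2
    have e3 := mem_sl'.1 (mem_product.1 h1).1
    have e4 := mem_sl'.1 (mem_product.1 h1).2
    change p • (gr f a.1 - gr f a.2 - (gr f b.1 - gr f b.2)) = 0
    rw [smul_sub, smul_sub, smul_sub, e1, e2, e3, e4, sub_self]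
  · intro b hb c _ hbc
    have h3 : gr f b.1 - gr f b.2 = gr f c.1 - gr f c.2 := sub_right_injective hbc
    obtain ⟨h4, h5⟩ := pl_inj hf (hne b (mem_coe.1 hb)) h3
    exact Prod.ext h4 h5

theorem P4_le (hf : IsPlanar f) (v : H × K) :
    (P4 p (gr f) (sl p f v)).card + ((PG p H K).filter fun g => p • g = 0).card *
        (P2 p (gr f) (sl p f v)).card ≤
      (P2 p (gr f) (sl p f v)).card ^ 2 +
        ((PG p H K).filter fun g => p • g = 0).card * (sl p f v).card ^ 2 := by
  have h1 := P4_le_sum (p := p) (f := f) v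
  rw [← sum_filter_add_sum_filter_not (sl p f v ×ˢ sl p f v)
    (fun a : H × H => ∀ l : H × K →+ ZMod p, l (gr f a.1) = l (gr f a.2))] at h1
  have h2 : ∑ a ∈ (sl p f v ×ˢ sl p f v).filter (fun a : H × H =>
      ∀ l : H × K →+ ZMod p, l (gr f a.1) = l (gr f a.2)),
      ((sl p f v ×ˢ sl p f v).filter fun b =>
        ∀ l : H × K →+ ZMod p, l (gr f a.1 - gr f a.2) = l (gr f b.1 - gr f b.2)).card ≤
      (P2 p (gr f) (sl p f v)).card * (P2 p (gr f) (sl p f v)).card := by
    refine (sum_le_card_nsmul _ _ _ fun a ha => cnt_P2 v a (mem_filter.1 ha).2).trans ?_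
    rw [smul_eq_mul]
    exact le_refl _
  have h3 : ∑ a ∈ (sl p f v ×ˢ sl p f v).filter (fun a : H × H =>
      ¬ ∀ l : H × K →+ ZMod p, l (gr f a.1) = l (gr f a.2)),
      ((sl p f v ×ˢ sl p f v).filter fun b =>
        ∀ l : H × K →+ ZMod p, l (gr f a.1 - gr f a.2) = l (gr f b.1 - gr f b.2)).card ≤
      ((sl p f v ×ˢ sl p f v).filter (fun a : H × H =>
        ¬ ∀ l : H × K →+ ZMod p, l (gr f a.1) = l (gr f a.2))).card *
        ((PG p H K).filter fun g => p • g = 0).card := by
    refine (sum_le_card_nsmul _ _ _ fun a ha =>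
      cnt_not hf v a (mem_filter.1 ha).1 (mem_filter.1 ha).2).trans ?_
    rw [smul_eq_mul]
  have h4 := card_filter_add_card_filter_not (s := sl p f v ×ˢ sl p f v)
    (fun a : H × H => ∀ l : H × K →+ ZMod p, l (gr f a.1) = l (gr f a.2))
  rw [card_product] at h4
  have h5 : ((sl p f v ×ˢ sl p f v).filter (fun a : H × H =>
      ∀ l : H × K →+ ZMod p, l (gr f a.1) = l (gr f a.2))).card =
      (P2 p (gr f) (sl p f v)).card := rfl
  rw [h5] at h4
  generalize ((sl p f v ×ˢ sl p f v).filter (fun a : H × H =>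
    ¬ ∀ l : H × K →+ ZMod p, l (gr f a.1) = l (gr f a.2))).card = m at h3 h4
  generalize ((PG p H K).filter fun g => p • g = 0).card = q at h3 ⊢
  generalize (P2 p (gr f) (sl p f v)).card = n2 at h2 h4 ⊢
  generalize (sl p f v).card = n at h4 ⊢
  have h6 : q * n ^ 2 = q * n2 + m * q := by
    rw [pow_two, ← h4]
    ring
  have h7 : n2 ^ 2 = n2 * n2 := pow_two _
  omega

theorem exists_coll (hf : IsPlanar f) (h h' : H) (hh : h = p • h') (h0 : h ≠ 0)
    (hp0 : p • h = 0) :
    ∃ v ∈ PG p H K, (sl p f v).card < (P2 p (gr f) (sl p f v)).card := by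
  obtain ⟨x, hx⟩ := (hf h h0).2 0
  have hx' : f (h + x) - f x = 0 := hx
  have h1 : gr f (h + x) - gr f x = (h, 0) := by
    refine Prod.ext ?_ hx'
    change h + x - x = h
    exact add_sub_cancel_right h x
  have h2 : gr f (h + x) - gr f x = p • ((h', 0) : H × K) := by
    rw [h1, hh]
    exact Prod.ext rfl (smul_zero p).symm
  have h3 : p • gr f (h + x) = p • gr f x := by
    rw [← sub_eq_zero, ← smul_sub, h1]
    exact Prod.ext hp0 (smul_zero p)
  have hne : h + x ≠ x := fun e => h0 (add_eq_right.1 e)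
  refine ⟨p • gr f x, mem_image.2 ⟨gr f x, mem_univ _, rfl⟩, ?_⟩
  have h4 : ((sl p f (p • gr f x)).image fun y : H => (y, y)) ⊂
      P2 p (gr f) (sl p f (p • gr f x)) := by
    rw [ssubset_iff_of_subset]
    · refine ⟨(h + x, x), mem_P2.2 ⟨⟨mem_sl'.2 h3, mem_sl'.2 rfl⟩, fun l => ?_⟩, fun hm => ?_⟩
      · have h5 : l (gr f (h + x) - gr f x) = 0 := by
          rw [h2, map_nsmul]
          simp
        rw [map_sub] at h5
        exact sub_eq_zero.1 h5
      · obtain ⟨y, -, hy⟩ := mem_image.1 hm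
        exact hne ((Prod.mk.inj hy).1.symm.trans (Prod.mk.inj hy).2)
    · intro z hz
      obtain ⟨y, hy, rfl⟩ := mem_image.1 hz
      exact mem_P2.2 ⟨⟨hy, hy⟩, fun _ => rfl⟩
  have h5 := card_lt_card h4
  rwa [card_image_of_injective _ (fun a b hab => (Prod.mk.inj hab).1)] at h5

theorem simple_lt {s : ℕ} (hf : IsPlanar f)
    (hκ : Nat.card (Set.range fun g : H × K => p • g) = p ^ s) (v : H × K) :
    ((sl p f v).filter fun x => (cls p (gr f) (sl p f v) (gr f x)).card ≠ 1).card < p ^ s := by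
  refine lt_of_le_of_lt ?_ (coll_lt hf hκ)
  have h1 : ∀ x ∈ (sl p f v).filter (fun x => (cls p (gr f) (sl p f v) (gr f x)).card ≠ 1),
      ∃ x' ∈ cls p (gr f) (sl p f v) (gr f x), x' ≠ x := by
    intro x hx
    obtain ⟨hx1, hx2⟩ := mem_filter.1 hx
    have hm := T2b.self_mem_cls hx1
    have h2 : 1 < (cls p (gr f) (sl p f v) (gr f x)).card := by
      have := Finset.card_pos.2 ⟨x, hm⟩
      omega
    exact exists_mem_ne h2 x
  choose! y hy hne using h1
  refine card_le_card_of_injOn (fun x => (x, y x)) ?_ ?_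
  · intro x hx
    exact mem_coe.2 (T2b.coll_of_cls (hy x (mem_coe.1 hx)) (hne x (mem_coe.1 hx)).symm)
  · intro a _ b _ hab
    exact (Prod.mk.inj hab).1

end Pool.Agent.H88.E7
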