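import Pool.Agent.H88.T7.Big

/-!
# E7 module SecA (MP_460e77_co, helper88): sections of sets which kill products of `s (p - 1)` functionals

`codim_dvd`: the sum of `∏ i (1 - (τ i (y x) - z i) ^ (p - 1))` over `S` is the number mod `p`; expand it into products of at most `j (p - 1) ≤ s (p - 1)` functionals
(or induct on `j` with the statement for lists: `Kills p y S (n + (p - 1))` gives `Kills p y (S.filter (τ (y x) = z)) n`, because `1 - u ^ (p - 1)` is the indicator of `u = 0`; `Kills p y S 1` gives `p ∣ S.card`).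
`iso_eq`: as in `big` (Pool/Agent/H88/T7/Big.lean, copy its private lemmas): `g z = (S.filter fun x' => ∀ i, τ i (y x') = z i).card` on `V = Fin (s + 1) → ZMod p`, `z0 i = τ i (y x)`, `g z0 = 1`,
`∑ t ∈ range p, g (z0 + t • z) ≥ p` for every `z`; the sum of these over all `z` is `p ^ (s + 1) + (p - 1) * S.card = p ^ (s + 1) * p`, so (`Finset.sum_eq_sum_iff_of_le`) equality holds for every `z`;
sum over the `z` with `z i = 0` (there are `p ^ s`): `p ^ s * p = p ^ s + (p - 1) * N`, `N` = number of `x'` with `τ i (y x') = τ i (y x)`, so `N = p ^ s`.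
-/

set_option autoImplicit false

namespace Pool.Agent.H88.E7

open Finset Pool.Agent.H16.RB

private lemma SecA_filter_eq {p s : ℕ} {X G : Type*} [AddCommGroup G] (y : X → G) (S : Finset X)
    (τ : Fin s → (G →+ ZMod p)) (z : Fin s → ZMod p) :
    (S.filter fun x => ∀ i, τ i (y x) = z i) = S.filter fun x => (fun i => τ i (y x)) = z := by
  apply Finset.filter_congr
  intro x _
  exact funext_iff.symm

private lemma SecA_sum_eq {p s : ℕ} [NeZero p] {X G : Type*} [AddCommGroup G] (y : X → G)
    (S : Finset X) (τ : Fin s → (G →+ ZMod p)) (φ : (Fin s → ZMod p) → ZMod p) :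
    ∑ z, (((S.filter fun x => ∀ i, τ i (y x) = z i).card : ℕ) : ZMod p) * φ z =
      ∑ x ∈ S, φ (fun i => τ i (y x)) := by
  rw [← Finset.sum_fiberwise S (fun x => (fun i => τ i (y x))) (fun x => φ (fun i => τ i (y x)))]
  refine Finset.sum_congr rfl fun z _ => ?_
  rw [SecA_filter_eq y S τ z]
  have h : ∑ x ∈ S.filter (fun x => (fun i => τ i (y x)) = z), φ (fun i => τ i (y x)) =
      ∑ _x ∈ S.filter (fun x => (fun i => τ i (y x)) = z), φ z := by
    refine Finset.sum_congr rfl fun x hx => ?_
    rw [(Finset.mem_filter.mp hx).2]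
  rw [h, Finset.sum_const, nsmul_eq_mul]

private lemma SecA_card_eq {p s : ℕ} [NeZero p] {X G : Type*} [AddCommGroup G] (y : X → G)
    (S : Finset X) (τ : Fin s → (G →+ ZMod p)) :
    ∑ z : Fin s → ZMod p, (S.filter fun x => ∀ i, τ i (y x) = z i).card = S.card := by
  have h := Finset.card_eq_sum_card_fiberwise (s := S) (t := (Finset.univ : Finset (Fin s → ZMod p)))
    (f := fun x => (fun i => τ i (y x))) (fun x _ => Finset.mem_coe.mpr (Finset.mem_univ _))
  rw [h]
  refine Finset.sum_congr rfl fun z _ => ?_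
  rw [SecA_filter_eq y S τ z]

private lemma SecA_card_part {p s : ℕ} [NeZero p] {X G : Type*} [AddCommGroup G] (y : X → G)
    (S : Finset X) (τ : Fin s → (G →+ ZMod p)) (i : Fin s) (a : ZMod p) :
    ∑ w ∈ univ.filter (fun w : Fin s → ZMod p => w i = a),
      (S.filter fun x => ∀ i, τ i (y x) = w i).card = (S.filter fun x => τ i (y x) = a).card := by
  rw [Finset.card_eq_sum_card_fiberwise (s := S.filter fun x => τ i (y x) = a)
    (t := univ.filter (fun w : Fin s → ZMod p => w i = a)) (f := fun x => (fun i => τ i (y x)))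
    (fun x hx => by
      rw [Finset.mem_coe, Finset.mem_filter] at hx
      rw [Finset.mem_coe, Finset.mem_filter]
      exact ⟨Finset.mem_univ _, hx.2⟩)]
  refine Finset.sum_congr rfl fun w hw => ?_
  rw [SecA_filter_eq y S τ w, Finset.filter_filter]
  congr 1
  apply Finset.filter_congr
  intro x _
  constructor
  · intro h
    refine ⟨?_, h⟩
    rw [← (Finset.mem_filter.1 hw).2, ← h]
  · exact fun h => h.2

private lemma SecA_kills_one {p n : ℕ} [Fact p.Prime] {X G : Type*} [AddCommGroup G] (y : X → G)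
    (S : Finset X) (hK : Kills p y S (n + (p - 1))) (τ : G →+ ZMod p) (c : ZMod p) :
    Kills p y (S.filter fun x => τ (y x) = c) n := by
  have hp : p.Prime := Fact.out
  intro L hL
  rw [Finset.sum_filter]
  have h1 : ∀ x ∈ S, (if τ (y x) = c then (L.map fun l => l.1 (y x) - l.2).prod else 0) =
      (L.map fun l => l.1 (y x) - l.2).prod -
        ((List.replicate (p - 1) (τ, c) ++ L).map fun l => l.1 (y x) - l.2).prod := by
    intro x _
    rw [List.map_append, List.prod_append, List.map_replicate, List.prod_replicate]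
    by_cases h : τ (y x) = c
    · have h0 : p - 1 ≠ 0 := by have := hp.two_le; omega
      rw [if_pos h, h, sub_self, zero_pow h0]
      ring
    · rw [if_neg h, ZMod.pow_card_sub_one_eq_one (sub_ne_zero.2 h)]
      ring
  have h0 : p - 1 ≠ 0 := by have := hp.two_le; omega
  rw [Finset.sum_congr rfl h1, Finset.sum_sub_distrib, hK L (by omega),
    hK (List.replicate (p - 1) (τ, c) ++ L) (by
      rw [List.length_append, List.length_replicate]; omega), sub_zero]

private lemma SecA_kills {p : ℕ} [Fact p.Prime] {X G : Type*} [AddCommGroup G] (y : X → G)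
    (j : ℕ) : ∀ (n : ℕ) (S : Finset X), Kills p y S (n + j * (p - 1)) →
    ∀ (τ : Fin j → (G →+ ZMod p)) (z : Fin j → ZMod p),
      Kills p y (S.filter fun x => ∀ i, τ i (y x) = z i) n := by
  induction j with
  | zero =>
    intro n S hK τ z
    have h1 : (S.filter fun x => ∀ i : Fin 0, τ i (y x) = z i) = S :=
      Finset.filter_true_of_mem (fun x _ i => i.elim0)
    rw [h1]
    simpa using hK
  | succ j ih =>
    intro n S hK τ z
    have h1 : Kills p y (S.filter fun x => τ 0 (y x) = z 0) (n + j * (p - 1)) := by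
      apply SecA_kills_one
      have h2 : n + (j + 1) * (p - 1) = n + j * (p - 1) + (p - 1) := by ring
      rwa [h2] at hK
    have h3 := ih n _ h1 (fun i => τ i.succ) (fun i => z i.succ)
    rw [Finset.filter_filter] at h3
    have h4 : (S.filter fun x => ∀ i, τ i (y x) = z i) =
        S.filter fun x => τ 0 (y x) = z 0 ∧ ∀ i : Fin j, τ i.succ (y x) = z i.succ := by
      apply Finset.filter_congr
      intro x _
      exact Fin.forall_fin_succ
    rw [h4]
    exact h3

theorem codim_dvd {p s : ℕ} [Fact p.Prime] {X G : Type*} [AddCommGroup G] (y : X → G)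
    (S : Finset X) (hK : Kills p y S (s * (p - 1) + 1)) {j : ℕ} (hj : j ≤ s)
    (τ : Fin j → (G →+ ZMod p)) (z : Fin j → ZMod p) :
    p ∣ (S.filter fun x => ∀ i, τ i (y x) = z i).card := by
  have h1 : Kills p y S (1 + j * (p - 1)) := by
    intro L hL
    apply hK L
    have h2 : j * (p - 1) ≤ s * (p - 1) := Nat.mul_le_mul_right _ hj
    omega
  have h3 := SecA_kills y j 1 S h1 τ z [] (by simp)
  simp only [List.map_nil, List.prod_nil, Finset.sum_const, nsmul_eq_mul, mul_one] at h3
  exact (ZMod.natCast_eq_zero_iff _ _).1 h3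

theorem iso_eq {p s : ℕ} [Fact p.Prime] {X G : Type*} [AddCommGroup G] (y : X → G) (S : Finset X)
    (hK : Kills p y S (s * (p - 1) + 1)) (hS : S.card = p ^ (s + 1)) (x : X)
    (τ : Fin (s + 1) → (G →+ ZMod p))
    (hτ : (S.filter fun x' => ∀ i, τ i (y x') = τ i (y x)).card = 1) (i : Fin (s + 1)) :
    (S.filter fun x' => τ i (y x') = τ i (y x)).card = p ^ s := by
  classical
  have hp : p.Prime := Fact.out
  have hp2 : 2 ≤ p := hp.two_le
  set g : (Fin (s + 1) → ZMod p) → ℕ :=
    fun z => (S.filter fun x' => ∀ i, τ i (y x') = z i).card with hg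
  set z0 : Fin (s + 1) → ZMod p := fun i => τ i (y x) with hz0
  have hg0 : g z0 = 1 := by
    simp only [hg, hz0]
    exact hτ
  have hn : (s * (p - 1) + 1) + (p - 2) = (s + 1) * (p - 1) := by
    rw [Nat.add_mul, Nat.one_mul]
    omega
  have hkill : ∀ L : List (((Fin (s + 1) → ZMod p) →+ ZMod p) × ZMod p),
      L.length < s * (p - 1) + 1 →
      ∑ z, ((g z : ℕ) : ZMod p) * (L.map fun l => l.1 z - l.2).prod = 0 := by
    intro L hL
    rw [SecA_sum_eq y S τ (fun z => (L.map fun l => l.1 z - l.2).prod)]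
    have h := hK (L.map fun l => (l.1.comp (AddMonoidHom.mk' (fun v : G => (fun i => τ i v))
      (fun a b => by funext i; simp)), l.2)) (by rw [List.length_map]; exact hL)
    rw [← h]
    refine Finset.sum_congr rfl fun x _ => ?_
    rw [List.map_map]
    rfl
  have hline : ∀ z : Fin (s + 1) → ZMod p, p ≤ ∑ t ∈ range p, g (z0 + t • z) := by
    intro z
    have h2 := deg_of_kills hn (fun z => ((g z : ℕ) : ZMod p)) hkill
      (List.replicate (p - 1) z) (by rw [List.length_replicate]; omega) z0
    have h3 := Pool.Agent.H88.T7.line_zero (p := p) (V := Fin (s + 1) → ZMod p) (by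
      intro v
      funext i
      simp) (fun z => ((g z : ℕ) : ZMod p)) z z0 h2
    rw [← Nat.cast_sum, ZMod.natCast_eq_zero_iff] at h3
    refine Nat.le_of_dvd ?_ h3
    have h4 : g (z0 + 0 • z) ≤ ∑ t ∈ range p, g (z0 + t • z) :=
      Finset.single_le_sum (f := fun t => g (z0 + t • z)) (fun t _ => Nat.zero_le _)
        (Finset.mem_range.2 hp.pos)
    rw [zero_smul, add_zero, hg0] at h4
    omega
  have hcard : ∑ z, g z = p ^ (s + 1) := by rw [← hS]; exact SecA_card_eq y S τ
  have hcardV : Fintype.card (Fin (s + 1) → ZMod p) = p ^ (s + 1) := by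
    rw [Fintype.card_fun, ZMod.card, Fintype.card_fin]
  have ht0 : ∀ t ∈ (range p).erase 0, (t : ZMod p) ≠ 0 := by
    intro t ht h
    rw [Finset.mem_erase, Finset.mem_range] at ht
    rw [ZMod.natCast_eq_zero_iff] at h
    exact absurd (Nat.le_of_dvd (Nat.pos_of_ne_zero ht.1) h) (not_le.2 ht.2)
  have hinj : ∀ t ∈ (range p).erase 0,
      Function.Injective (fun z : Fin (s + 1) → ZMod p => z0 + t • z) := by
    intro t ht z w hzw
    have h2 : t • z = t • w := add_left_cancel hzw
    funext i
    have h3 := congrFun h2 i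
    simp only [Pi.smul_apply, nsmul_eq_mul] at h3
    exact mul_left_cancel₀ (ht0 t ht) h3
  have hperm : ∀ t ∈ (range p).erase 0,
      ∑ z : Fin (s + 1) → ZMod p, g (z0 + t • z) = p ^ (s + 1) := by
    intro t ht
    rw [← hcard]
    exact Function.Bijective.sum_comp (Finite.injective_iff_bijective.1 (hinj t ht)) g
  have htot : ∑ z : Fin (s + 1) → ZMod p, ∑ t ∈ range p, g (z0 + t • z) = p ^ (s + 1) * p := by
    rw [Finset.sum_comm, ← Finset.add_sum_erase _ _ (Finset.mem_range.2 hp.pos)]
    rw [Finset.sum_congr rfl hperm, Finset.sum_const, Finset.card_erase_of_mem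
      (Finset.mem_range.2 hp.pos), Finset.card_range, smul_eq_mul]
    have h5 : ∑ z : Fin (s + 1) → ZMod p, g (z0 + 0 • z) = p ^ (s + 1) := by
      simp only [zero_smul, add_zero, hg0]
      rw [Finset.sum_const, Finset.card_univ, hcardV, smul_eq_mul, mul_one]
    rw [h5]
    obtain ⟨r, hr⟩ : ∃ r, p = r + 1 := ⟨p - 1, by omega⟩
    have h6 : p - 1 = r := by omega
    rw [h6]
    have h7 : p ^ (s + 1) * p = p ^ (s + 1) * (r + 1) := by rw [← hr]
    rw [h7]
    ring
  have heq : ∀ z : Fin (s + 1) → ZMod p, p = ∑ t ∈ range p, g (z0 + t • z) := by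
    have h8 : ∑ _z : Fin (s + 1) → ZMod p, p =
        ∑ z : Fin (s + 1) → ZMod p, ∑ t ∈ range p, g (z0 + t • z) := by
      rw [htot, Finset.sum_const, Finset.card_univ, hcardV, smul_eq_mul]
    intro z
    exact (Finset.sum_eq_sum_iff_of_le (fun z _ => hline z)).1 h8 z (Finset.mem_univ z)
  set Z : Finset (Fin (s + 1) → ZMod p) := univ.filter (fun z => z i = 0) with hZ
  set N : ℕ := (S.filter fun x' => τ i (y x') = τ i (y x)).card with hN
  have hN' : ∑ w ∈ univ.filter (fun w : Fin (s + 1) → ZMod p => w i = z0 i), g w = N :=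
    SecA_card_part y S τ i (z0 i)
  have hZc : Z.card = p ^ s := by
    have h9 : Z.card * p = p ^ s * p := by
      have h10 : (univ : Finset (Fin (s + 1) → ZMod p)).card = p ^ (s + 1) := by
        rw [Finset.card_univ, hcardV]
      have h11 := Finset.card_eq_sum_card_fiberwise (s := (univ : Finset (Fin (s + 1) → ZMod p)))
        (t := (univ : Finset (ZMod p))) (f := fun z => z i)
        (fun z _ => Finset.mem_coe.mpr (Finset.mem_univ _))
      have h12 : ∀ a ∈ (univ : Finset (ZMod p)),
          (univ.filter (fun z : Fin (s + 1) → ZMod p => z i = a)).card = Z.card := by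
        intro a _
        refine Finset.card_bij' (fun z _ => z - Pi.single i a) (fun z _ => z + Pi.single i a)
          ?_ ?_ ?_ ?_
        · intro z hz
          rw [Finset.mem_filter] at hz
          rw [hZ, Finset.mem_filter]
          exact ⟨Finset.mem_univ _, by simp [hz.2]⟩
        · intro z hz
          rw [hZ, Finset.mem_filter] at hz
          rw [Finset.mem_filter]
          exact ⟨Finset.mem_univ _, by simp [hz.2]⟩
        · intro z _
          simp
        · intro z _
          simp
      rw [Finset.sum_congr rfl h12, h10, Finset.sum_const, Finset.card_univ, ZMod.card,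
        smul_eq_mul] at h11
      rw [mul_comm, ← h11, pow_succ]
    exact Nat.eq_of_mul_eq_mul_right hp.pos h9
  have hpermZ : ∀ t ∈ (range p).erase 0, ∑ z ∈ Z, g (z0 + t • z) = N := by
    intro t ht
    rw [← hN']
    refine Finset.sum_nbij (fun z => z0 + t • z) ?_ ?_ ?_ ?_
    · intro z hz
      rw [hZ, Finset.mem_filter] at hz
      rw [Finset.mem_filter]
      exact ⟨Finset.mem_univ _, by simp [hz.2]⟩
    · exact fun a _ b _ h => hinj t ht h
    · intro w hw
      rw [Finset.mem_coe, Finset.mem_filter] at hw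
      refine ⟨fun j => (t : ZMod p)⁻¹ * (w j - z0 j), ?_, ?_⟩
      · rw [Finset.mem_coe, hZ, Finset.mem_filter]
        exact ⟨Finset.mem_univ _, by simp [hw.2]⟩
      · funext j
        change z0 j + t • ((t : ZMod p)⁻¹ * (w j - z0 j)) = w j
        rw [nsmul_eq_mul, mul_inv_cancel_left₀ (ht0 t ht)]
        ring
    · exact fun _ _ => rfl
  have htotZ : ∑ z ∈ Z, ∑ t ∈ range p, g (z0 + t • z) = p ^ s + (p - 1) * N := by
    rw [Finset.sum_comm, ← Finset.add_sum_erase _ _ (Finset.mem_range.2 hp.pos)]
    rw [Finset.sum_congr rfl hpermZ, Finset.sum_const, Finset.card_erase_of_mem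
      (Finset.mem_range.2 hp.pos), Finset.card_range, smul_eq_mul]
    congr 1
    simp only [zero_smul, add_zero, hg0]
    rw [Finset.sum_const, hZc, smul_eq_mul, mul_one]
  have htotZ' : ∑ z ∈ Z, ∑ t ∈ range p, g (z0 + t • z) = p ^ s * p := by
    rw [Finset.sum_congr rfl (fun z _ => (heq z).symm), Finset.sum_const, hZc, smul_eq_mul]
  rw [htotZ] at htotZ'
  have h13 : (p - 1) * N = (p - 1) * p ^ s := by
    obtain ⟨r, hr⟩ : ∃ r, p = r + 1 := ⟨p - 1, by omega⟩
    have h6 : p - 1 = r := by omega
    rw [h6] at htotZ' ⊢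
    have h7 : p ^ s * p = p ^ s * (r + 1) := by rw [← hr]
    rw [h7] at htotZ'
    nlinarith
  exact Nat.eq_of_mul_eq_mul_left (by omega) h13

end Pool.Agent.H88.E7
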