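import Pool.Agent.H88.E7.SecA

/-!
# E7 module SecB (MP_460e77_co, helper88): sections have `p ^ s` or at least `2 p ^ s` points

Let `T` be the section through the simple point `x` and suppose `T.card < 2 * p ^ s`.  GREEDY: by induction on `j`, for `T' ⊆ S` containing `x` (all other points of `S` can be separated from `x`: this is `h1`),
with `T'.card < 2 * p ^ j` and (if `j ≥ 1`) `p ∣ (T'.filter fun x' => ∀ i, τ i (y x') = τ i (y x)).card` for all `τ : Fin k → _`, `k < j`, there is `τ : Fin j → _` with `T'.filter (∀ i, τ i (y x') = τ i (y x)) = {x}`: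
`j = 0`: `T'.card < 2`.  `j + 1`: `T'.card ≤ 2 p ^ (j + 1) - p`; some `l` agrees with `l (y x)` on at most a `p`-th part of the other points (double counting over `l : G →+ ZMod p`: for each `x' ≠ x` exactly `1 / p` of the `l`
have `l (y x' - y x) = 0`; cf. the private `Iso_count`, `Iso_step` in Pool/Agent/H16/RB/Iso.lean), i.e. on at most `(2 p ^ (j + 1) - p - 1) / p ≤ 2 p ^ j - 2` of them; take `T'.filter (l (y x') = l (y x))`.
With `T' = T`, `j = s` (`codim_dvd` for `ψ` and `k ≤ s - 1` functionals) and `Fin.cons ψ τ` in `iso_eq` the section has `p ^ s` points.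
-/

set_option autoImplicit false

namespace Pool.Agent.H88.E7

open Finset Pool.Agent.H16.RB

private theorem SecB_count {p : ℕ} [Fact p.Prime] {A : Type*} [AddCommGroup A] [Fintype A]
    (ev : A →+ ZMod p) (h : ∃ a, ev a ≠ 0) :
    ((univ : Finset A).filter (fun a => ev a = 0)).card * p = Fintype.card A := by
  classical
  have hsurj : Function.Surjective ev := by
    obtain ⟨a, ha⟩ := h
    intro z
    refine ⟨(z * (ev a)⁻¹).val • a, ?_⟩
    rw [map_nsmul, nsmul_eq_mul, ZMod.natCast_zmod_val, mul_assoc, inv_mul_cancel₀ ha, mul_one]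
  have h1 := AddSubgroup.card_mul_index ev.ker
  rw [AddSubgroup.index_ker, AddMonoidHom.range_eq_top.mpr hsurj, AddSubgroup.card_top,
    Nat.card_zmod] at h1
  have h2 : Nat.card ev.ker = ((univ : Finset A).filter (fun a => ev a = 0)).card := by
    apply Nat.subtype_card
    intro x
    simp only [mem_filter, mem_univ, true_and]
    exact (AddMonoidHom.mem_ker (f := ev) (x := x)).symm
  rw [h2, Nat.card_eq_fintype_card] at h1
  exact h1

/-- some functional takes the value `l z` on at most a `p`-th part of the points of `T` -/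
private theorem SecB_step {p : ℕ} [Fact p.Prime] {X G : Type*} [AddCommGroup G] [Finite G]
    (y : X → G) (z : G) (T : Finset X) (h : ∀ x ∈ T, ∃ l : G →+ ZMod p, l (y x) ≠ l z) :
    ∃ l : G →+ ZMod p, (T.filter fun x => l (y x) = l z).card * p ≤ T.card := by
  classical
  have hp : 0 < p := (Fact.out : p.Prime).pos
  have : Finite (G →+ ZMod p) := DFunLike.finite _
  obtain ⟨hA⟩ := nonempty_fintype (G →+ ZMod p)
  by_contra hcon
  push Not at hcon
  have hcount : ∀ x ∈ T, ((univ : Finset (G →+ ZMod p)).filter
      (fun l => l (y x) = l z)).card * p = Fintype.card (G →+ ZMod p) := by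
    intro x hx
    have h1 := SecB_count (p := p) (A := G →+ ZMod p) (AddMonoidHom.eval (y x - z)) (by
      obtain ⟨l, hl⟩ := h x hx
      refine ⟨l, ?_⟩
      rw [AddMonoidHom.eval_apply_apply, map_sub]
      exact sub_ne_zero.2 hl)
    rw [← h1]
    congr 2
    ext l
    simp only [mem_filter, mem_univ, true_and]
    rw [AddMonoidHom.eval_apply_apply, map_sub, sub_eq_zero]
  have hdc : ∑ l : G →+ ZMod p, (T.filter (fun x => l (y x) = l z)).card =
      ∑ x ∈ T, ((univ : Finset (G →+ ZMod p)).filter (fun l => l (y x) = l z)).card := by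
    simp only [card_filter]
    exact Finset.sum_comm
  have h2 : (∑ x ∈ T, ((univ : Finset (G →+ ZMod p)).filter
      (fun l => l (y x) = l z)).card) * p = T.card * Fintype.card (G →+ ZMod p) := by
    rw [Finset.sum_mul, Finset.sum_congr rfl hcount, Finset.sum_const, smul_eq_mul]
  have h3 : 0 < Fintype.card (G →+ ZMod p) := Fintype.card_pos
  have h4 : Fintype.card (G →+ ZMod p) * (T.card + 1) ≤
      ∑ l : G →+ ZMod p, (T.filter (fun x => l (y x) = l z)).card * p := by
    have := Finset.card_nsmul_le_sum (univ : Finset (G →+ ZMod p))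
      (fun l => (T.filter (fun x => l (y x) = l z)).card * p) (T.card + 1)
      (fun l _ => hcon l)
    rwa [smul_eq_mul, Finset.card_univ] at this
  rw [← Finset.sum_mul, hdc, h2] at h4
  nlinarith

private theorem SecB_cons {p k : ℕ} {X G : Type*} [AddCommGroup G] (y : X → G) (x : X)
    (T : Finset X) (l : G →+ ZMod p) (τ : Fin k → (G →+ ZMod p)) :
    ((T.filter fun x' => l (y x') = l (y x)).filter fun x' => ∀ i, τ i (y x') = τ i (y x)) =
      T.filter fun x' => ∀ i : Fin (k + 1),
        (Fin.cons l τ : Fin (k + 1) → (G →+ ZMod p)) i (y x') =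
          (Fin.cons l τ : Fin (k + 1) → (G →+ ZMod p)) i (y x) := by
  ext x'
  simp only [mem_filter, Fin.forall_fin_succ, Fin.cons_zero, Fin.cons_succ, and_assoc]

private theorem SecB_greedy {p : ℕ} [Fact p.Prime] {X G : Type*} [AddCommGroup G] [Finite G]
    (y : X → G) (x : X) (j : ℕ) (T : Finset X) (hx : x ∈ T)
    (hsep : ∀ x' ∈ T, x' ≠ x → ∃ l : G →+ ZMod p, l (y x') ≠ l (y x))
    (hT : T.card < 2 * p ^ j)
    (hd : ∀ k, k < j → ∀ τ : Fin k → (G →+ ZMod p),
      p ∣ (T.filter fun x' => ∀ i, τ i (y x') = τ i (y x)).card) :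
    ∃ τ : Fin j → (G →+ ZMod p), (T.filter fun x' => ∀ i, τ i (y x') = τ i (y x)).card = 1 := by
  classical
  have hp : 0 < p := (Fact.out : p.Prime).pos
  induction j generalizing T with
  | zero =>
    refine ⟨fun i => i.elim0, ?_⟩
    rw [pow_zero, mul_one] at hT
    have h1 : (T.filter fun x' => ∀ i : Fin 0, (fun i : Fin 0 => (i.elim0 : G →+ ZMod p)) i (y x') =
        (fun i : Fin 0 => (i.elim0 : G →+ ZMod p)) i (y x)) = T := by
      apply Finset.filter_true_of_mem
      intro x' _ i
      exact i.elim0
    rw [h1]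
    have h2 : 0 < T.card := Finset.card_pos.2 ⟨x, hx⟩
    omega
  | succ j ih =>
    obtain ⟨l, hl⟩ := SecB_step (p := p) y (y x) (T.erase x) (fun x' hx' =>
      hsep x' (Finset.mem_of_mem_erase hx') (Finset.ne_of_mem_erase hx'))
    have hpT : p ∣ T.card := by
      have h1 := hd 0 (Nat.succ_pos j) (fun i => i.elim0)
      rwa [Finset.filter_true_of_mem (fun x' _ i => i.elim0)] at h1
    have hcard : (T.filter fun x' => l (y x') = l (y x)).card =
        ((T.erase x).filter fun x' => l (y x') = l (y x)).card + 1 := by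
      rw [Finset.filter_erase, Finset.card_erase_add_one]
      rw [Finset.mem_filter]
      exact ⟨hx, rfl⟩
    have hT1 : T.card + p ≤ 2 * p ^ (j + 1) := by
      obtain ⟨m, hm⟩ := hpT
      have h1 : p * m < p * (2 * p ^ j) := by
        calc p * m = T.card := hm.symm
          _ < 2 * p ^ (j + 1) := hT
          _ = p * (2 * p ^ j) := by ring
      have h2 : m + 1 ≤ 2 * p ^ j := Nat.lt_of_mul_lt_mul_left h1
      calc T.card + p = p * (m + 1) := by rw [hm]; ring
        _ ≤ p * (2 * p ^ j) := Nat.mul_le_mul_left _ h2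
        _ = 2 * p ^ (j + 1) := by ring
    have hT2 : (T.erase x).card + 1 = T.card := Finset.card_erase_add_one hx
    have hT3 : (T.filter fun x' => l (y x') = l (y x)).card < 2 * p ^ j := by
      rw [hcard]
      set c := ((T.erase x).filter fun x' => l (y x') = l (y x)).card with hc
      have h1 : (c + 1) * p < (2 * p ^ j) * p := by
        calc (c + 1) * p = c * p + p := by ring
          _ ≤ (T.erase x).card + p := by omega
          _ < T.card + p := by omega
          _ ≤ 2 * p ^ (j + 1) := hT1
          _ = (2 * p ^ j) * p := by ring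
      exact Nat.lt_of_mul_lt_mul_right h1
    obtain ⟨τ, hτ⟩ := ih (T.filter fun x' => l (y x') = l (y x))
      (by rw [Finset.mem_filter]; exact ⟨hx, rfl⟩)
      (fun x' hx' => hsep x' (Finset.mem_filter.1 hx').1) hT3 (fun k hk τ => by
        rw [SecB_cons y x T l τ]
        exact hd (k + 1) (by omega) _)
    refine ⟨Fin.cons l τ, ?_⟩
    rw [← SecB_cons y x T l τ]
    exact hτ

theorem sections {p s : ℕ} [Fact p.Prime] {X G : Type*} [AddCommGroup G] [Finite G]
    (hs : 1 ≤ s) (y : X → G) (S : Finset X) (hK : Kills p y S (s * (p - 1) + 1))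
    (hS : S.card = p ^ (s + 1)) (x : X) (hx : x ∈ S) (h1 : (cls p y S (y x)).card = 1)
    (ψ : G →+ ZMod p) :
    (S.filter fun x' => ψ (y x') = ψ (y x)).card = p ^ s ∨
      2 * p ^ s ≤ (S.filter fun x' => ψ (y x') = ψ (y x)).card := by
  by_cases hlt : 2 * p ^ s ≤ (S.filter fun x' => ψ (y x') = ψ (y x)).card
  · exact Or.inr hlt
  · left
    push Not at hlt
    obtain ⟨τ, hτ⟩ := SecB_greedy (p := p) y x s (S.filter fun x' => ψ (y x') = ψ (y x))
      (by rw [Finset.mem_filter]; exact ⟨hx, rfl⟩)
      (by
        intro x' hx' hne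
        by_contra hcon
        push Not at hcon
        apply hne
        rw [Finset.card_eq_one] at h1
        obtain ⟨a, ha⟩ := h1
        have h2 : x ∈ cls p y S (y x) := by
          classical
          unfold cls
          exact Finset.mem_filter.2 ⟨hx, fun l => rfl⟩
        have h3 : x' ∈ cls p y S (y x) := by
          classical
          unfold cls
          exact Finset.mem_filter.2 ⟨(Finset.mem_filter.1 hx').1, hcon⟩
        rw [ha, Finset.mem_singleton] at h2 h3
        rw [h2, h3])
      hlt (by
        intro k hk τ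
        rw [SecB_cons y x S ψ τ]
        exact codim_dvd y S hK (j := k + 1) (by omega) _ _)
    rw [SecB_cons y x S ψ τ] at hτ
    have h4 := iso_eq y S hK hS x (Fin.cons ψ τ) hτ 0
    simpa only [Fin.cons_zero] using h4

end Pool.Agent.H88.E7
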