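import Pool.Agent.H88.E7.SecB
import Pool.Agent.H88.E7.Cl
import Pool.Agent.H88.E7.Gs
import Pool.Agent.H88.E7.Pairs

/-!
# E7 module Val (MP_460e77_co, helper88): the absolute values of the character sums of the slices

`val0`: for `x, x'` in the slice `p • (gr f x - gr f x') = 0`, so all terms are equal.
`val`, case `ψ (0, k) ≠ 0` for some `k`: `N c = (section of value c).card`.  `gauss_form`: `N c = p ^ s + ∑ a h η (c - h)`, so `N c ≤ 2 p ^ s`.  If the section contains a simple point (class of one element) then `sections`: `N c = p ^ s` or `2 p ^ s`.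
The other sections consist of non simple points, so (`simple_lt`) the sum of their `N c` is `< p ^ s`; as `∑ N c = p * p ^ s` it is a multiple of `p ^ s`, so `0`.  So `N c = p ^ s * (1 + d c)` with `d c ∈ {0, 1, -1}`, `cl` applies with `P = p ^ s`:
`d = 0` gives `TT = p ^ s * ∑ ew w c = 0`, `d c = ε η (c - h0)` gives `TT = ± p ^ s * ew w h0 * gs p w` and `norm_gs`: `‖TT‖ ^ 2 = p ^ (2 s) * p`.
Case `ψ (0, k) = 0` for all `k` (so `ψ g ≠ 0` for `g = (h, 0)`, `p • h = 0`): the slice is `{x | p • x = v.1}` (`hK1`, `v.2 = 0`), invariant under `x ↦ h + x`, and `ψ (gr f (h + x)) = ψ (h, 0) + ψ (gr f x)`: `TT = ew w (ψ (h, 0)) * TT`, `TT = 0`.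
-/

set_option autoImplicit false

namespace Pool.Agent.H88.E7

open Finset Pool.Agent.H16.RB Pool.Agent.H88.Pl
open scoped Classical

variable {p s : ℕ} [Fact p.Prime] {H K : Type*} [AddCommGroup H] [AddCommGroup K] [Fintype H]
  [Fintype K] {f : H → K}

private theorem eta_abs (u : ZMod p) : |(quadraticChar (ZMod p) u : ℤ)| ≤ 1 := by
  rcases quadraticChar_isQuadratic (ZMod p) u with h | h | h <;> rw [h] <;> norm_num

private theorem ew_sum {w : ℂ} (hw : IsPrimitiveRoot w p) : ∑ u : ZMod p, ew w u = 0 := by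
  have h := sum_ew_mul hw (1 : ZMod p)
  simp only [mul_one, one_ne_zero, if_false] at h
  exact h

private theorem eta_sum (hp : p ≠ 2) {w : ℂ} (hw : IsPrimitiveRoot w p) :
    ∑ u : ZMod p, ((quadraticChar (ZMod p) u : ℤ) : ℂ) * ew w u = gs p w := by
  have hgs : gs p w = ∑ k : ZMod p, ew w (k ^ 2) := by
    rw [GsAux.gs_eq hw]
    refine sum_congr rfl fun k _ => ?_
    rw [ew, AddChar.zmodChar_apply]
  have h1 : ∑ k : ZMod p, ew w (k ^ 2) =
      ∑ u : ZMod p, (((quadraticChar (ZMod p) u : ℤ) : ℂ) + 1) * ew w u := by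
    rw [← sum_fiberwise (univ : Finset (ZMod p)) (fun k => k ^ 2) (fun k => ew w (k ^ 2))]
    refine sum_congr rfl fun u _ => ?_
    have h2 : ∑ k ∈ (univ : Finset (ZMod p)) with k ^ 2 = u, ew w (k ^ 2) =
        ∑ _k ∈ (univ : Finset (ZMod p)) with _k ^ 2 = u, ew w u := by
      refine sum_congr rfl fun k hk => ?_
      rw [(mem_filter.1 hk).2]
    rw [h2, sum_const, nsmul_eq_mul]
    congr 1
    have h3 := quadraticChar_card_sqrts (GsAux.ringChar_ne hp) u
    have h4 : ({x : ZMod p | x ^ 2 = u}.toFinset : Finset (ZMod p)) =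
        (univ : Finset (ZMod p)).filter (fun k => k ^ 2 = u) := by
      ext k
      simp
    rw [h4] at h3
    have h5 : ((((univ : Finset (ZMod p)).filter (fun k => k ^ 2 = u)).card : ℤ) : ℂ) =
        ((quadraticChar (ZMod p) u + 1 : ℤ) : ℂ) := by
      rw [h3]
    push_cast at h5
    exact h5
  rw [hgs, h1]
  simp only [add_mul, one_mul]
  rw [sum_add_distrib, ew_sum hw, add_zero]

private theorem TT_eq {w : ℂ} {X G : Type*} [AddCommGroup G] (y : X → G) (S : Finset X)
    (ψ : G →+ ZMod p) :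
    TT w y S ψ = ∑ c : ZMod p, ((S.filter fun x => ψ (y x) = c).card : ℂ) * ew w c := by
  rw [TT, ← sum_fiberwise S (fun x => ψ (y x)) (fun x => ew w (ψ (y x)))]
  refine sum_congr rfl fun c _ => ?_
  have h2 : ∑ x ∈ S with ψ (y x) = c, ew w (ψ (y x)) = ∑ _x ∈ S with ψ (y _x) = c, ew w c := by
    refine sum_congr rfl fun x hx => ?_
    rw [(mem_filter.1 hx).2]
  rw [h2, sum_const, nsmul_eq_mul]

private theorem card_sum {X G : Type*} [AddCommGroup G] (y : X → G) (S : Finset X)
    (ψ : G →+ ZMod p) : ∑ c : ZMod p, (S.filter fun x => ψ (y x) = c).card = S.card := by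
  have h := sum_fiberwise S (fun x => ψ (y x)) (fun _ => (1 : ℕ))
  simpa using h

theorem val0 {w : ℂ} (hw : IsPrimitiveRoot w p) (v : H × K) (ψ : H × K →+ ZMod p)
    (hψ : ∀ g : H × K, p • g = 0 → ψ g = 0) :
    ‖TT w (gr f) (sl p f v) ψ‖ ^ 2 = ((sl p f v).card : ℝ) ^ 2 := by
  rcases (sl p f v).eq_empty_or_nonempty with h | ⟨x0, hx0⟩
  · rw [h]
    simp [TT]
  · have h1 : ∀ x ∈ sl p f v, ew w (ψ (gr f x)) = ew w (ψ (gr f x0)) := by
      intro x hx
      congr 1
      have e1 : p • gr f x = v := (mem_filter.1 hx).2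
      have e2 : p • gr f x0 = v := (mem_filter.1 hx0).2
      have h2 : p • (gr f x - gr f x0) = 0 := by rw [smul_sub, e1, e2, sub_self]
      have h3 := hψ _ h2
      rw [map_sub, sub_eq_zero] at h3
      exact h3
    have h2 : TT w (gr f) (sl p f v) ψ = ((sl p f v).card : ℂ) * ew w (ψ (gr f x0)) := by
      rw [TT, sum_congr rfl h1, sum_const, nsmul_eq_mul]
    rw [h2, norm_mul, norm_ew hw.pow_eq_one, mul_one, Complex.norm_natCast]

/-- the case of a functional which vanishes on `0 × K` -/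
private theorem val_B {w : ℂ} (hw : IsPrimitiveRoot w p) (hK1 : ∀ k : K, p • k = 0) (v : H × K)
    (ψ : H × K →+ ZMod p) (hψK : ∀ k : K, ψ (0, k) = 0) (h : H) (hh : p • h = 0)
    (hne : ψ (h, 0) ≠ 0) : TT w (gr f) (sl p f v) ψ = 0 := by
  have hwp := hw.pow_eq_one
  have hgr : ∀ x, gr f (h + x) = (h, 0) + gr f x + (0, f (h + x) - f x) := by
    intro x
    ext
    · simp [gr]
    · simp [gr]
  have hψx : ∀ x, ψ (gr f (h + x)) = ψ (h, 0) + ψ (gr f x) := by
    intro x
    rw [hgr, map_add, map_add, hψK, add_zero]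
  have hpg : ∀ x, p • gr f (h + x) = p • gr f x := by
    intro x
    rw [hgr, smul_add, smul_add]
    have e1 : p • ((h, 0) : H × K) = 0 := by
      ext
      · simpa using hh
      · simp
    have e2 : p • ((0, f (h + x) - f x) : H × K) = 0 := by
      ext
      · simp
      · simpa using hK1 _
    rw [e1, e2, zero_add, add_zero]
  have h1 : TT w (gr f) (sl p f v) ψ = ew w (ψ (h, 0)) * TT w (gr f) (sl p f v) ψ := by
    conv_lhs => rw [TT]
    rw [TT, mul_sum]
    symm
    refine sum_bij (fun x _ => h + x) ?_ ?_ ?_ ?_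
    · intro x hx
      exact mem_filter.2 ⟨mem_univ _, by rw [hpg]; exact (mem_filter.1 hx).2⟩
    · intro x _ x' _ hxx
      exact add_left_cancel hxx
    · intro x hx
      refine ⟨-h + x, mem_filter.2 ⟨mem_univ _, ?_⟩, by rw [add_neg_cancel_left]⟩
      rw [← hpg, add_neg_cancel_left]
      exact (mem_filter.1 hx).2
    · intro x _
      rw [hψx, ew_add hwp]
  have h2 : (ew w (ψ (h, 0)) - 1) * TT w (gr f) (sl p f v) ψ = 0 := by
    rw [sub_mul, one_mul, ← h1, sub_self]
  rcases mul_eq_zero.1 h2 with h3 | h3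
  · exact absurd ((ew_eq_one_iff hw _).1 (sub_eq_zero.1 h3)) hne
  · exact h3

theorem val (hs : 1 ≤ s) (hp : p ≠ 2) (hH : Fintype.card H = p ^ (2 * s + 1)) (hf : IsPlanar f)
    (hK1 : ∀ k : K, p • k = 0) (hκ : Nat.card (Set.range fun g : H × K => p • g) = p ^ s)
    {w : ℂ} (hw : IsPrimitiveRoot w p) (v : H × K) (hv : v ∈ PG p H K)
    (hn : (sl p f v).card = p ^ (s + 1)) (hkill : Kills p (gr f) (sl p f v) (s * (p - 1) + 1))
    (ψ : H × K →+ ZMod p) (hψ : ∃ g : H × K, p • g = 0 ∧ ψ g ≠ 0) :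
    ‖TT w (gr f) (sl p f v) ψ‖ ^ 2 = 0 ∨ ‖TT w (gr f) (sl p f v) ψ‖ ^ 2 = (p : ℝ) ^ (2 * s + 1) := by
  have hwp := hw.pow_eq_one
  by_cases hA : ∃ k : K, ψ (0, k) ≠ 0
  swap
  · push Not at hA
    obtain ⟨g, hg, hgψ⟩ := hψ
    left
    have e1 : g = (g.1, 0) + (0, g.2) := by
      ext <;> simp
    have e2 : ψ (g.1, 0) ≠ 0 := by
      rw [e1, map_add, hA, add_zero] at hgψ
      exact hgψ
    have e3 : p • g.1 = 0 := by
      have := congrArg Prod.fst hg
      simpa using this
    rw [val_B hw hK1 v ψ hA g.1 e3 e2]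
    simp
  have hPG : (PG p H K).card = p ^ s := Pool.Agent.H88.T7.card_PG' hκ
  obtain ⟨a, ha, hN⟩ := gauss_form hp hH f hf hK1 hPG ψ hA v hv hn
  have hpp : p.Prime := Fact.out
  have hps : 0 < p ^ s := pow_pos hpp.pos _
  set S := sl p f v with hS
  set N : ZMod p → ℕ := fun c => (S.filter fun x => ψ (gr f x) = c).card with hNdef
  have hN' : ∀ c, (N c : ℤ) = (p : ℤ) ^ s + ∑ h, a h * quadraticChar (ZMod p) (c - h) := hN
  have hle : ∀ c, N c ≤ 2 * p ^ s := by
    intro c
    have h1 : ∑ h, a h * quadraticChar (ZMod p) (c - h) ≤ (p : ℤ) ^ s := by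
      refine le_trans (le_abs_self _) ((abs_sum_le_sum_abs _ _).trans (le_trans ?_ ha))
      refine sum_le_sum fun h _ => ?_
      rw [abs_mul]
      exact mul_le_of_le_one_right (abs_nonneg _) (eta_abs _)
    have h2 := hN' c
    have h3 : (N c : ℤ) ≤ 2 * (p : ℤ) ^ s := by linarith
    exact_mod_cast h3
  have hsumN : ∑ c, N c = p ^ (s + 1) := by
    rw [← hn]
    exact card_sum (gr f) S ψ
  set Gd : ZMod p → Prop := fun c => ∃ x ∈ S, ψ (gr f x) = c ∧ (cls p (gr f) S (gr f x)).card = 1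
    with hGd
  have hgood : ∀ c, Gd c → N c = p ^ s ∨ N c = 2 * p ^ s := by
    rintro c ⟨x, hx, rfl, h1⟩
    rcases sections hs (gr f) S hkill hn x hx h1 ψ with h2 | h2
    · exact Or.inl h2
    · exact Or.inr (le_antisymm (hle _) h2)
  have hbad : ∀ c, ¬ Gd c → N c = 0 := by
    have hsplit := sum_filter_add_sum_filter_not (univ : Finset (ZMod p)) Gd N
    have hd1 : p ^ s ∣ ∑ c ∈ (univ : Finset (ZMod p)) with Gd c, N c := by
      refine dvd_sum fun c hc => ?_
      rcases hgood c (mem_filter.1 hc).2 with h | h <;> rw [h]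
      exact dvd_mul_left _ _
    have hd2 : p ^ s ∣ ∑ c ∈ (univ : Finset (ZMod p)) with ¬ Gd c, N c := by
      refine (Nat.dvd_add_right hd1).1 ?_
      rw [hsplit, hsumN]
      exact pow_dvd_pow _ (Nat.le_succ _)
    have hlt : ∑ c ∈ (univ : Finset (ZMod p)) with ¬ Gd c, N c < p ^ s := by
      refine lt_of_le_of_lt ?_ (simple_lt hf hκ v)
      rw [← card_sum (gr f) ((sl p f v).filter fun x =>
        (cls p (gr f) (sl p f v) (gr f x)).card ≠ 1) ψ]
      refine le_trans ?_ (sum_le_sum_of_subset (filter_subset (fun c => ¬ Gd c) univ))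
      refine sum_le_sum fun c hc => ?_
      refine card_le_card fun x hx => ?_
      rw [mem_filter] at hx
      refine mem_filter.2 ⟨mem_filter.2 ⟨hx.1, fun h1 => ?_⟩, hx.2⟩
      exact (mem_filter.1 hc).2 ⟨x, hx.1, hx.2, h1⟩
    have h0 := Nat.eq_zero_of_dvd_of_lt hd2 hlt
    intro c hc
    exact (sum_eq_zero_iff.1 h0) c (mem_filter.2 ⟨mem_univ _, hc⟩)
  set d : ZMod p → ℤ := fun c => if N c = 0 then -1 else if N c = p ^ s then 0 else 1 with hd
  have h01 : ∀ c, d c = 0 ∨ d c = 1 ∨ d c = -1 := by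
    intro c
    simp only [hd]
    split_ifs <;> simp
  have hNd : ∀ c, (N c : ℤ) = (p : ℤ) ^ s * (1 + d c) := by
    intro c
    have h3 : N c = 0 ∨ N c = p ^ s ∨ N c = 2 * p ^ s := by
      by_cases hc : Gd c
      · exact Or.inr (hgood c hc)
      · exact Or.inl (hbad c hc)
    rcases h3 with h | h | h
    · simp only [hd, if_pos h]
      rw [h]
      simp
    · have h' : ¬ N c = 0 := by omega
      simp only [hd, if_neg h', if_pos h]
      rw [h]
      push_cast
      ring
    · have h' : ¬ N c = 0 := by omega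
      have h'' : ¬ N c = p ^ s := by omega
      simp only [hd, if_neg h', if_neg h'']
      rw [h]
      push_cast
      ring
  have hcl := cl hp ((p : ℤ) ^ s) (by exact_mod_cast hps) a d ha (by
    intro c
    have h1 := hN' c
    rw [hNd c] at h1
    linarith) h01
  have hTT : TT w (gr f) S ψ = (p : ℂ) ^ s * ∑ c : ZMod p, (1 + (d c : ℂ)) * ew w c := by
    rw [TT_eq, mul_sum]
    refine sum_congr rfl fun c _ => ?_
    have h1 : ((N c : ℤ) : ℂ) = (((p : ℤ) ^ s * (1 + d c) : ℤ) : ℂ) := by rw [hNd c]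
    push_cast at h1
    rw [← mul_assoc, ← h1]
  have hTT2 : TT w (gr f) S ψ = (p : ℂ) ^ s * ∑ c : ZMod p, (d c : ℂ) * ew w c := by
    rw [hTT]
    congr 1
    simp only [add_mul, one_mul]
    rw [sum_add_distrib, ew_sum hw, zero_add]
  rcases hcl with h | ⟨h0, ε, hε, h⟩
  · left
    rw [hTT2]
    simp [h]
  · right
    have h1 : ∑ c : ZMod p, (d c : ℂ) * ew w c = (ε : ℂ) * ew w h0 * gs p w := by
      rw [← eta_sum hp hw, mul_sum]
      rw [← Equiv.sum_comp (Equiv.addRight h0) (fun c => (d c : ℂ) * ew w c)]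
      refine sum_congr rfl fun u _ => ?_
      simp only [Equiv.coe_addRight]
      rw [h (u + h0), add_sub_cancel_right, ew_add hwp]
      push_cast
      ring
    rw [hTT2, h1, norm_mul, norm_mul, norm_mul, norm_ew hwp, mul_one, norm_pow, Complex.norm_natCast]
    have h2 : ‖(ε : ℂ)‖ = 1 := by
      rcases hε with rfl | rfl <;> simp
    rw [h2, one_mul, mul_pow, norm_gs hp hw, ← pow_mul, pow_succ, mul_comm s 2]

end Pool.Agent.H88.E7
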